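import Pool.Agent.J4H26.PC.Q1

/-! Project PC: (B8) `S_PAIRS` from `S_VLAW`. -/

set_option autoImplicit false

namespace Pool.Agent.J4H79.PC2

open Finset Filter Real
open Pool.Agent.J4H39 hiding Ph
open Pool.Agent.J4H26.PC

/-! ### integrals of functions of `⌈x⌉` -/

theorem ii_ceil (g : ℤ → ℝ) {M : ℝ} (hg : ∀ k, 0 ≤ g k ∧ g k ≤ M) (a b : ℝ) :
    IntervalIntegrable (fun x : ℝ => g ⌈x⌉) MeasureTheory.volume a b := by
  have hM : 0 ≤ M := (hg 0).1.trans (hg 0).2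
  have hm : Measurable (fun x : ℝ => g ⌈x⌉) := (measurable_from_top (f := g)).comp Int.measurable_ceil
  refine IntervalIntegrable.mono_fun' (g := fun _ => M) intervalIntegrable_const hm.aestronglyMeasurable ?_
  refine Filter.Eventually.of_forall fun x => ?_
  simp only [Real.norm_eq_abs]
  rw [abs_of_nonneg (hg _).1]
  exact (hg _).2

theorem int_unit (g : ℤ → ℝ) (k : ℤ) : ∫ x in ((k : ℝ) - 1)..k, g ⌈x⌉ = g k := by
  have h1 : ∫ x in ((k : ℝ) - 1)..k, g ⌈x⌉ = ∫ x in ((k : ℝ) - 1)..k, g k := by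
    rw [intervalIntegral.integral_of_le (by linarith), intervalIntegral.integral_of_le (by linarith)]
    apply MeasureTheory.setIntegral_congr_fun measurableSet_Ioc
    intro x hx
    simp only
    rw [Int.ceil_eq_iff.mpr ⟨hx.1, hx.2⟩]
  rw [h1, intervalIntegral.integral_const]
  simp

theorem int_ceil (g : ℤ → ℝ) {M : ℝ} (hg : ∀ k, 0 ≤ g k ∧ g k ≤ M) (α : ℝ) (N : ℕ) :
    |(∫ x in α..(α + N), g ⌈x⌉) - ∑ j ∈ range N, g (⌈α⌉ + j)| ≤ M := by
  have hM : 0 ≤ M := (hg 0).1.trans (hg 0).2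
  have h1 : ∑ j ∈ range N, g (⌈α⌉ + j) = ∫ x in ((⌈α⌉ : ℝ) - 1)..((⌈α⌉ : ℝ) - 1 + N), g ⌈x⌉ := by
    have h2 := intervalIntegral.sum_integral_adjacent_intervals (f := fun x : ℝ => g ⌈x⌉) (μ := MeasureTheory.volume)
      (a := fun k : ℕ => (⌈α⌉ : ℝ) - 1 + k) (n := N) (fun k _ => ii_ceil g hg _ _)
    simp only [Nat.cast_zero, add_zero] at h2
    rw [← h2]
    apply sum_congr rfl
    intro k _
    have h3 := int_unit g (⌈α⌉ + k)
    push_cast at h3 ⊢
    rw [← h3]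
    congr 1 <;> ring
  have c1 := Int.le_ceil α
  have c2 := Int.ceil_lt_add_one α
  rw [h1]
  have i1 := ii_ceil g hg ((⌈α⌉ : ℝ) - 1) α
  have i2 := ii_ceil g hg α (α + N)
  have i3 := ii_ceil g hg ((⌈α⌉ : ℝ) - 1) ((⌈α⌉ : ℝ) - 1 + N)
  have i4 := ii_ceil g hg ((⌈α⌉ : ℝ) - 1 + N) (α + N)
  have e1 := intervalIntegral.integral_add_adjacent_intervals i1 i2
  have e2 := intervalIntegral.integral_add_adjacent_intervals i3 i4
  have b : ∀ x y : ℝ, x ≤ y → y ≤ x + 1 → 0 ≤ ∫ t in x..y, g ⌈t⌉ ∧ (∫ t in x..y, g ⌈t⌉) ≤ M := by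
    intro x y hxy hyx
    refine ⟨intervalIntegral.integral_nonneg hxy fun t _ => (hg _).1, ?_⟩
    have := intervalIntegral.norm_integral_le_of_norm_le_const (a := x) (b := y) (f := fun t : ℝ => g ⌈t⌉) (C := M)
      (fun t _ => by rw [Real.norm_eq_abs, abs_of_nonneg (hg _).1]; exact (hg _).2)
    refine (le_abs_self _).trans (this.trans ?_)
    rw [abs_of_nonneg (by linarith)]
    nlinarith
  have b1 := b ((⌈α⌉ : ℝ) - 1) α (by linarith) (by linarith)
  have b2 := b ((⌈α⌉ : ℝ) - 1 + N) (α + N) (by linarith) (by linarith)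
  rw [abs_le]
  constructor <;> linarith [b1.1, b1.2, b2.1, b2.2]

/-! ### correlations -/

section corr

variable (f : ℤ → ℝ) (A : ℤ) (N : ℕ)

/-- the correlation at the distance `h` -/
noncomputable def co (h : ℕ) : ℝ := ∑ j ∈ range N, f (A + j) * f (A + j + h)

/-- the sum over all pairs -/
noncomputable def TT (m : ℕ) : ℝ := ∑ i ∈ range m, ∑ i' ∈ range m, co f A N ((i - i') + (i' - i))

/-- the sum over the distances `1, …, m` -/
noncomputable def SS (m : ℕ) : ℝ := ∑ i ∈ range m, co f A N (i + 1)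

end corr

theorem shift_le (u : ℤ → ℝ) (hu : ∀ n, |u n| ≤ 1) (A : ℤ) (N i : ℕ) :
    |∑ j ∈ range N, u (A + j + i) - ∑ j ∈ range N, u (A + j)| ≤ 2 * i := by
  induction i with
  | zero => simp
  | succ i ih =>
    have h1 : ∑ j ∈ range N, u (A + j + (i + 1 : ℕ)) = ∑ j ∈ range N, u (A + j + i) + u (A + N + i) - u (A + 0 + i) := by
      have h2 := sum_range_succ (fun j : ℕ => u (A + j + i)) N
      have h3 := sum_range_succ' (fun j : ℕ => u (A + j + i)) N
      have h4 : ∑ j ∈ range N, u (A + (j + 1 : ℕ) + i) = ∑ j ∈ range N, u (A + j + (i + 1 : ℕ)) := by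
        apply sum_congr rfl
        intro j _
        congr 1
        push_cast
        ring
      rw [h4] at h3
      rw [h3] at h2
      push_cast at h2 ⊢
      linarith
    rw [h1]
    have b1 := abs_le.mp (hu (A + N + i))
    have b2 := abs_le.mp (hu (A + 0 + i))
    rw [abs_le] at ih ⊢
    push_cast
    constructor <;> linarith [ih.1, ih.2, b1.1, b1.2, b2.1, b2.2]

theorem prod_le {f : ℤ → ℝ} (hf : ∀ n, |f n| ≤ 1) (a b : ℤ) : |f a * f b| ≤ 1 := by
  rw [abs_mul]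
  exact mul_le_one₀ (hf a) (abs_nonneg _) (hf b)

theorem co_le {f : ℤ → ℝ} (hf : ∀ n, |f n| ≤ 1) (A : ℤ) (N h : ℕ) : |co f A N h| ≤ N := by
  unfold co
  refine (abs_sum_le_sum_abs _ _).trans ?_
  refine (sum_le_sum fun j _ => prod_le hf _ _).trans ?_
  simp

theorem pair_le {f : ℤ → ℝ} (hf : ∀ n, |f n| ≤ 1) (A : ℤ) (N : ℕ) {m i i' : ℕ} (hi : i < m) (hi' : i' < m) :
    |∑ j ∈ range N, f (A + j + i) * f (A + j + i') - co f A N ((i - i') + (i' - i))| ≤ 2 * m := by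
  rcases le_total i i' with h | h
  · have h1 := shift_le (fun n => f n * f (n + (i' - i : ℕ))) (fun n => prod_le hf _ _) A N i
    have e1 : i - i' + (i' - i) = i' - i := by omega
    rw [e1]
    unfold co
    have e2 : ∀ j : ℕ, A + (j : ℤ) + i + ((i' - i : ℕ) : ℤ) = A + j + i' := by
      intro j
      push_cast [h]
      ring
    simp only [e2] at h1
    refine h1.trans ?_
    have : (i : ℝ) ≤ m := by exact_mod_cast hi.le
    linarith
  · have h1 := shift_le (fun n => f n * f (n + (i - i' : ℕ))) (fun n => prod_le hf _ _) A N i'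
    have e1 : i - i' + (i' - i) = i - i' := by omega
    rw [e1]
    unfold co
    have e2 : ∀ j : ℕ, A + (j : ℤ) + i' + ((i - i' : ℕ) : ℤ) = A + j + i := by
      intro j
      push_cast [h]
      ring
    simp only [e2] at h1
    have e3 : ∑ j ∈ range N, f (A + j + i) * f (A + j + i') = ∑ j ∈ range N, f (A + j + i') * f (A + j + i) :=
      sum_congr rfl fun j _ => mul_comm _ _
    rw [e3]
    refine h1.trans ?_
    have : (i' : ℝ) ≤ m := by exact_mod_cast hi'.le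
    linarith

theorem squares_le {f : ℤ → ℝ} (hf : ∀ n, |f n| ≤ 1) (A : ℤ) (N m : ℕ) :
    |∑ j ∈ range N, (∑ i ∈ range m, f (A + j + i)) ^ 2 - TT f A N m| ≤ 2 * (m : ℝ) ^ 3 := by
  have h1 : ∑ j ∈ range N, (∑ i ∈ range m, f (A + j + i)) ^ 2 =
      ∑ i ∈ range m, ∑ i' ∈ range m, ∑ j ∈ range N, f (A + j + i) * f (A + j + i') := by
    calc ∑ j ∈ range N, (∑ i ∈ range m, f (A + j + i)) ^ 2 =
        ∑ j ∈ range N, ∑ i ∈ range m, ∑ i' ∈ range m, f (A + j + i) * f (A + j + i') := by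
          apply sum_congr rfl
          intro j _
          rw [sq, sum_mul_sum]
      _ = ∑ i ∈ range m, ∑ j ∈ range N, ∑ i' ∈ range m, f (A + j + i) * f (A + j + i') := sum_comm
      _ = _ := by
          apply sum_congr rfl
          intro i _
          exact sum_comm
  rw [h1]
  unfold TT
  rw [← sum_sub_distrib]
  refine (abs_sum_le_sum_abs _ _).trans ?_
  calc ∑ i ∈ range m, |∑ i' ∈ range m, ∑ j ∈ range N, f (A + j + i) * f (A + j + i') -
      ∑ i' ∈ range m, co f A N (i - i' + (i' - i))| ≤ ∑ i ∈ range m, ∑ i' ∈ range m, 2 * (m : ℝ) := by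
        apply sum_le_sum
        intro i hi
        rw [← sum_sub_distrib]
        refine (abs_sum_le_sum_abs _ _).trans ?_
        apply sum_le_sum
        intro i' hi'
        exact pair_le hf A N (mem_range.mp hi) (mem_range.mp hi')
    _ = 2 * (m : ℝ) ^ 3 := by
        simp
        ring

theorem TT_succ (f : ℤ → ℝ) (A : ℤ) (N m : ℕ) : TT f A N (m + 1) = TT f A N m + (co f A N 0 + 2 * SS f A N m) := by
  unfold TT SS
  rw [sum_range_succ]
  have h1 : ∑ i' ∈ range (m + 1), co f A N (m - i' + (i' - m)) =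
      ∑ i ∈ range m, co f A N (i + 1) + co f A N 0 := by
    rw [sum_range_succ]
    congr 1
    · rw [← sum_range_reflect (fun i => co f A N (i + 1)) m]
      apply sum_congr rfl
      intro i hi
      have := mem_range.mp hi
      congr 1
      omega
    · congr 1
      omega
  rw [h1]
  have h2 : ∑ i ∈ range m, ∑ i' ∈ range (m + 1), co f A N (i - i' + (i' - i)) =
      ∑ i ∈ range m, ∑ i' ∈ range m, co f A N (i - i' + (i' - i)) + ∑ i ∈ range m, co f A N (i + 1) := by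
    rw [← sum_range_reflect (fun i => co f A N (i + 1)) m, ← sum_add_distrib]
    apply sum_congr rfl
    intro i hi
    have := mem_range.mp hi
    rw [sum_range_succ]
    congr 2
    omega
  rw [h2]
  ring

theorem TT_add {f : ℤ → ℝ} (hf : ∀ n, |f n| ≤ 1) (A : ℤ) (N M d : ℕ) :
    |TT f A N (M + d) - TT f A N M - d * (co f A N 0 + 2 * SS f A N M)| ≤ 2 * (d : ℝ) ^ 2 * N := by
  have hS : ∀ d : ℕ, |SS f A N (M + d) - SS f A N M| ≤ d * N := by
    intro d
    induction d with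
    | zero => simp
    | succ d ih =>
      have e : SS f A N (M + (d + 1)) = SS f A N (M + d) + co f A N (M + d + 1) := by
        unfold SS
        rw [← add_assoc, sum_range_succ]
      have b := abs_le.mp (co_le hf A N (M + d + 1))
      rw [e]
      rw [abs_le] at ih ⊢
      push_cast
      constructor <;> linarith [ih.1, ih.2, b.1, b.2]
  induction d with
  | zero => simp
  | succ d ih =>
    rw [← add_assoc, TT_succ]
    have b := abs_le.mp (hS d)
    rw [abs_le] at ih ⊢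
    push_cast
    have hd : (0 : ℝ) ≤ d := Nat.cast_nonneg _
    have hN : (0 : ℝ) ≤ N := Nat.cast_nonneg _
    constructor
    · nlinarith [ih.1, b.1, b.2, mul_nonneg hd hN]
    · nlinarith [ih.2, b.1, b.2, mul_nonneg hd hN]

theorem Ico_range (f : ℤ → ℝ) (k : ℤ) (m : ℕ) : ∑ n ∈ Finset.Ico k (k + m), f n = ∑ i ∈ range m, f (k + i) := by
  symm
  apply sum_nbij' (fun i : ℕ => k + (i : ℤ)) (fun n : ℤ => (n - k).toNat)
  · intro i hi
    have := mem_range.mp hi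
    rw [Finset.mem_Ico]
    omega
  · intro n hn
    rw [Finset.mem_Ico] at hn
    rw [mem_range]
    omega
  · intro i hi
    simp
  · intro n hn
    rw [Finset.mem_Ico] at hn
    omega
  · intro i hi
    rfl

/-- mean squares of window averages and pairs -/
theorem VV_TT {f : ℤ → ℝ} (hf : ∀ n, |f n| ≤ 1) (κ : ℝ) {N m : ℕ} (hN : 1 ≤ N) (hm : 1 ≤ m) :
    |TT f ⌈κ * N⌉ N m - (m : ℝ) ^ 2 * N * VV f κ m N| ≤ (m : ℝ) ^ 2 + 2 * (m : ℝ) ^ 3 := by
  have hNr : (0 : ℝ) < N := by exact_mod_cast hN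
  have hmr : (1 : ℝ) ≤ m := by exact_mod_cast hm
  have hm0 : (0 : ℝ) < m := by linarith
  obtain ⟨g, hg⟩ : ∃ g : ℤ → ℝ, g = fun k => (∑ i ∈ range m, f (k + i)) ^ 2 := ⟨_, rfl⟩
  have hgb : ∀ k, 0 ≤ g k ∧ g k ≤ (m : ℝ) ^ 2 := by
    intro k
    rw [hg]
    refine ⟨sq_nonneg _, ?_⟩
    show (∑ i ∈ range m, f (k + i)) ^ 2 ≤ (m : ℝ) ^ 2
    rw [← sq_abs]
    apply pow_le_pow_left₀ (abs_nonneg _)
    refine (abs_sum_le_sum_abs _ _).trans ?_
    refine (sum_le_sum fun j _ => hf _).trans ?_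
    simp
  have h1 : (m : ℝ) ^ 2 * N * VV f κ m N = ∫ x in (κ * N)..(κ * N + N), g ⌈x⌉ := by
    have e1 : (fun x : ℝ => (Ph f x m) ^ 2) = fun x : ℝ => g ⌈x⌉ / (m : ℝ) ^ 2 := by
      funext x
      unfold Ph
      rw [max_eq_left hmr, Int.ceil_add_natCast, Ico_range, div_pow, hg]
    unfold VV
    rw [e1, intervalIntegral.integral_div]
    field_simp
  have h2 := int_ceil g hgb (κ * N) N
  have h3 := squares_le hf ⌈κ * N⌉ N m
  rw [h1]
  have e2 : ∑ j ∈ range N, g (⌈κ * N⌉ + j) = ∑ j ∈ range N, (∑ i ∈ range m, f (⌈κ * N⌉ + j + i)) ^ 2 := by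
    rw [hg]
  rw [e2] at h2
  rw [abs_le] at h2 h3 ⊢
  constructor <;> linarith [h2.1, h2.2, h3.1, h3.2]

theorem Icc_range (c : ℕ → ℝ) (M : ℕ) : ∑ h ∈ Finset.Icc 1 M, c h = ∑ i ∈ range M, c (i + 1) := by
  induction M with
  | zero => simp
  | succ M ih => rw [sum_Icc_succ_top (by omega), ih, sum_range_succ]

theorem pairs_SS (f : ℤ → ℝ) (κ : ℝ) (N M : ℕ) :
    ∑ n ∈ Finset.Ico ⌈κ * N⌉ ⌈κ * N + N⌉, ∑ h ∈ Finset.Icc 1 M, f n * f (n + (h : ℕ)) = SS f ⌈κ * N⌉ N M := by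
  rw [Int.ceil_add_natCast, Ico_range (fun n => ∑ h ∈ Finset.Icc 1 M, f n * f (n + (h : ℕ))), sum_comm,
    Icc_range (fun h => ∑ j ∈ range N, f (⌈κ * N⌉ + j) * f (⌈κ * N⌉ + j + (h : ℕ)))]
  rfl

/-- the differentiation -/
theorem deriv_le {T1 T2 S c0 L V1 V2 M d N ε ε' η : ℝ} (hM : 1 ≤ M) (hN : 0 < N) (hd0 : 0 < d) (hdM : d ≤ M)
    (hε : 0 < ε) (hη : 0 < η) (hηε : η ≤ ε / 6) (hd1 : d ≤ η * M) (hd2 : η * M ≤ 2 * d) (hε' : ε' = η * ε / 32)
    (hMε : 1 ≤ M * ε / 2) (hMN : M ≤ N * (η * ε / 92)) (hL : |L| ≤ 1) (hc0 : |c0| ≤ N)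
    (h1 : |T1 - M ^ 2 * N * V1| ≤ M ^ 2 + 2 * M ^ 3)
    (h2 : |T2 - (M + d) ^ 2 * N * V2| ≤ (M + d) ^ 2 + 2 * (M + d) ^ 3)
    (h3 : |T2 - T1 - d * (c0 + 2 * S)| ≤ 2 * d ^ 2 * N) (hV1 : |V1 - L| ≤ ε') (hV2 : |V2 - L| ≤ ε') :
    |S / (N * M) - L| ≤ ε := by
  have hM0 : 0 < M := by linarith
  have hε'0 : 0 < ε' := by rw [hε']; positivity
  have a1 : |M ^ 2 * N * V1 - M ^ 2 * N * L| ≤ M ^ 2 * N * ε' := by
    rw [← mul_sub, abs_mul, abs_of_pos (by positivity)]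
    gcongr
  have a2 : |(M + d) ^ 2 * N * V2 - (M + d) ^ 2 * N * L| ≤ (M + d) ^ 2 * N * ε' := by
    rw [← mul_sub, abs_mul, abs_of_pos (by positivity)]
    gcongr
  have b1 : (M + d) ^ 2 ≤ 4 * M ^ 2 := by nlinarith
  have b2 : (M + d) ^ 3 ≤ 8 * M ^ 3 := by
    calc (M + d) ^ 3 ≤ (2 * M) ^ 3 := by gcongr; linarith
      _ = 8 * M ^ 3 := by ring
  have b3 : M ^ 2 ≤ M ^ 3 := pow_le_pow_right₀ hM (by norm_num)
  have a3 : |d * c0| ≤ d * N := by
    rw [abs_mul, abs_of_pos hd0]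
    gcongr
  have a4 : |d ^ 2 * N * L| ≤ d ^ 2 * N := by
    rw [abs_mul, abs_of_pos (by positivity)]
    exact mul_le_of_le_one_right (by positivity) hL
  have b4 : (M + d) ^ 2 * N * ε' ≤ 4 * M ^ 2 * N * ε' := by gcongr
  have key : |2 * d * S - 2 * d * M * N * L| ≤ 3 * d ^ 2 * N + d * N + 23 * M ^ 3 + 5 * M ^ 2 * N * ε' := by
    have e : 2 * d * S - 2 * d * M * N * L = -(T2 - T1 - d * (c0 + 2 * S)) + (T2 - (M + d) ^ 2 * N * V2) -
      (T1 - M ^ 2 * N * V1) + ((M + d) ^ 2 * N * V2 - (M + d) ^ 2 * N * L) - (M ^ 2 * N * V1 - M ^ 2 * N * L) -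
      d * c0 + d ^ 2 * N * L := by ring
    rw [e]
    rw [abs_le] at h1 h2 h3 a1 a2 a3 a4 ⊢
    constructor
    · linarith [h1.1, h1.2, h2.1, h2.2, h3.1, h3.2, a1.1, a1.2, a2.1, a2.2, a3.1, a3.2, a4.1, a4.2]
    · linarith [h1.1, h1.2, h2.1, h2.2, h3.1, h3.2, a1.1, a1.2, a2.1, a2.2, a3.1, a3.2, a4.1, a4.2]
  have c1 : 3 * d ^ 2 * N ≤ d * M * N * ε / 2 := by
    calc 3 * d ^ 2 * N = 3 * d * N * d := by ring
      _ ≤ 3 * d * N * (η * M) := by gcongr
      _ ≤ 3 * d * N * (ε / 6 * M) := by gcongr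
      _ = d * M * N * ε / 2 := by ring
  have c2 : d * N ≤ d * M * N * ε / 2 := by
    calc d * N = d * N * 1 := by ring
      _ ≤ d * N * (M * ε / 2) := by gcongr
      _ = d * M * N * ε / 2 := by ring
  have c3 : 23 * M ^ 3 ≤ d * M * N * ε / 2 := by
    calc 23 * M ^ 3 = 23 * M ^ 2 * M := by ring
      _ ≤ 23 * M ^ 2 * (N * (η * ε / 92)) := by gcongr
      _ = M * N * ε / 4 * (η * M) := by ring
      _ ≤ M * N * ε / 4 * (2 * d) := by gcongr
      _ = d * M * N * ε / 2 := by ring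
  have c4 : 5 * M ^ 2 * N * ε' ≤ d * M * N * ε / 2 := by
    rw [hε']
    calc 5 * M ^ 2 * N * (η * ε / 32) = 5 * M * N * ε / 32 * (η * M) := by ring
      _ ≤ 5 * M * N * ε / 32 * (2 * d) := by gcongr
      _ = 5 / 8 * (d * M * N * ε / 2) := by ring
      _ ≤ d * M * N * ε / 2 := by
          have : 0 ≤ d * M * N * ε / 2 := by positivity
          linarith
  have fin : |2 * d * S - 2 * d * M * N * L| ≤ 2 * d * (N * M) * ε := by
    refine key.trans ?_
    linarith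
  have e2 : S / (N * M) - L = (2 * d * S - 2 * d * M * N * L) / (2 * d * (N * M)) := by
    field_simp
  rw [e2, abs_div, abs_of_pos (show 0 < 2 * d * (N * M) by positivity), div_le_iff₀ (by positivity)]
  linarith

/-- (B8) the pair correlations at the distances up to `N ^ θ` -/
theorem t_PAIRS : S_VLAW → S_PAIRS := by
  intro hV ψ hψ θ hθ hθ1 ε hε
  obtain ⟨η, hη⟩ : ∃ η : ℝ, η = min 1 (ε / 6) := ⟨_, rfl⟩
  have hη0 : 0 < η := by rw [hη]; exact lt_min one_pos (by positivity)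
  have hη1 : η ≤ 1 := by rw [hη]; exact min_le_left _ _
  have hηε : η ≤ ε / 6 := by rw [hη]; exact min_le_right _ _
  have t1 : Tendsto (fun N : ℕ => (N : ℝ) ^ θ) atTop atTop := (tendsto_rpow_atTop hθ).comp tendsto_natCast_atTop_atTop
  have t2 : Tendsto (fun N : ℕ => (N : ℝ) ^ (-(1 - θ))) atTop (nhds 0) :=
    (tendsto_rpow_neg_atTop (by linarith)).comp tendsto_natCast_atTop_atTop
  filter_upwards [hV ψ hψ θ hθ hθ1 (η * ε / 32) (by positivity), t1.eventually_ge_atTop (2 / η + 2 / ε + 2),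
    t2.eventually (ge_mem_nhds (show (0 : ℝ) < η * ε / 92 by positivity)), eventually_ge_atTop 1] with N h1 h2 h3 h4
  intro f κ q hc
  have hNr : (1 : ℝ) ≤ N := by exact_mod_cast h4
  have hN0 : (0 : ℝ) < N := by linarith
  have p1 : 0 < 2 / η := by positivity
  have p2 : 0 < 2 / ε := by positivity
  obtain ⟨M, hM⟩ : ∃ M : ℕ, M = ⌊(N : ℝ) ^ θ⌋₊ := ⟨_, rfl⟩
  rw [← hM]
  have hM1 : (M : ℝ) ≤ (N : ℝ) ^ θ := by rw [hM]; exact Nat.floor_le (by positivity)
  have hM2 : (N : ℝ) ^ θ < M + 1 := by rw [hM]; exact Nat.lt_floor_add_one _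
  have hMr : (1 : ℝ) ≤ M := by linarith
  have hMn : 1 ≤ M := by exact_mod_cast hMr
  obtain ⟨d, hd⟩ : ∃ d : ℕ, d = ⌊η * M⌋₊ := ⟨_, rfl⟩
  have hd1 : (d : ℝ) ≤ η * M := by rw [hd]; exact Nat.floor_le (by positivity)
  have hd2 : η * M < d + 1 := by rw [hd]; exact Nat.lt_floor_add_one _
  have hηM : 2 ≤ η * M := by
    have : 2 / η ≤ M := by linarith
    rw [div_le_iff₀ hη0] at this
    linarith
  have hεM : 1 ≤ M * ε / 2 := by
    have : 2 / ε ≤ M := by linarith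
    rw [div_le_iff₀ hε] at this
    linarith
  have hdM : (d : ℝ) ≤ M := hd1.trans (mul_le_of_le_one_left (by linarith) hη1)
  have hMN : (M : ℝ) ≤ N * (η * ε / 92) := by
    calc (M : ℝ) ≤ (N : ℝ) ^ θ := hM1
      _ = N * (N : ℝ) ^ (-(1 - θ)) := by
          have : θ = 1 + -(1 - θ) := by ring
          conv_lhs => rw [this]
          rw [Real.rpow_add hN0, Real.rpow_one]
      _ ≤ N * (η * ε / 92) := by gcongr
  have hv1 := h1 f κ q hc M (by linarith) (by linarith)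
  have hv2 := h1 f κ q hc (M + d : ℕ) (by push_cast; linarith) (by push_cast; linarith)
  have g1 := VV_TT hc.iv.bd κ h4 hMn
  have g2 := VV_TT hc.iv.bd κ h4 (show 1 ≤ M + d by omega)
  have g3 := TT_add hc.iv.bd ⌈κ * N⌉ N M d
  push_cast at hv2 g2
  rw [pairs_SS]
  have hL : |q * (1 - 2 / π * arcsin √θ)| ≤ 1 := by
    have s0 : 0 ≤ arcsin √θ := Real.arcsin_nonneg.mpr (Real.sqrt_nonneg _)
    have s1 : arcsin √θ ≤ π / 2 := Real.arcsin_le_pi_div_two _
    have hπ := Real.pi_pos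
    have s2 : 0 ≤ 2 / π * arcsin √θ := by positivity
    have s3 : 2 / π * arcsin √θ ≤ 1 := by
      calc 2 / π * arcsin √θ ≤ 2 / π * (π / 2) := by gcongr
        _ = 1 := by field_simp
    rw [abs_mul, abs_of_nonneg hc.q0, abs_of_nonneg (by linarith)]
    exact mul_le_one₀ hc.q1 (by linarith) (by linarith)
  exact deriv_le hMr hN0 (by linarith) hdM hε hη0 hηε hd1 (by linarith) rfl hεM hMN hL (co_le hc.iv.bd _ _ _) g1 g2 g3
    hv1 hv2

end Pool.Agent.J4H79.PC2
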