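import Pool.Agent.J4H26.PC.Q0

/-! Project PC: (A0) `S_DVR` and `S_LABR`, the total deviation and the labels with a rate. -/

set_option autoImplicit false

namespace Pool.Agent.J4H79.PC2

open Finset Filter Real
open Pool.Agent.J4H39 hiding Ph
open Pool.Agent.J4H26.PC

/-- one trajectory: the labels with an explicit error -/
theorem lab_pt (c : ℕ) {z : ℕ} (h3 : 16 ≤ z) {j : ℕ} (hj : z ^ 20 ≤ j) (hj2 : j ≤ 2 * z ^ 20) {s : ℤ × ℤ}
    (hs : GS (c * z ^ 12) (c * z ^ 14) s) : pb j (fun w => ¬ ((j - z ^ 11) / 2 ≤ od j w ∧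
      GS ((2 * c + 4) * z ^ 12) ((2 * c + 4) * z ^ 14) (rn stP j s w))) ≤ 3 * yz z := by
  have hj1 : 1 ≤ j := le_trans (Nat.one_le_pow _ _ (by omega)) hj
  have p11 : z ^ 11 ≤ z ^ 12 := Nat.pow_le_pow_right (by omega) (by norm_num)
  have p12 : z ^ 12 ≤ z ^ 14 := Nat.pow_le_pow_right (by omega) (by norm_num)
  have p1 : z ≤ z ^ 14 := Nat.le_self_pow (by norm_num) z
  have p0 : 1 ≤ z ^ 14 := Nat.one_le_pow _ _ (by omega)
  have ha : c * z ^ 12 + z ^ 11 ≤ (2 * c + 4) * z ^ 12 := by nlinarith [Nat.zero_le (c * z ^ 12)]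
  have hb : c * z ^ 12 + 2 * z ^ 11 + c * z ^ 14 + z + 1 ≤ (2 * c + 4) * z ^ 14 := by
    have := Nat.mul_le_mul_left c p12
    nlinarith
  have hx := x_bd h3 hj1 (by omega : j ≤ 8 * z ^ 20)
  have h4 : pb j (fun w => ¬ ((j - z ^ 11) / 2 ≤ od j w ∧
      GS ((2 * c + 4) * z ^ 12) ((2 * c + 4) * z ^ 14) (rn stP j s w))) ≤
      pb j (fun y => ¬ Gd j (4 ^ z : ℕ) ((z ^ 11 : ℕ) : ℝ) y) +
      pb j (fun y => ∃ t ≤ j, ¬ GS (c * z ^ 12 + z ^ 11) (c * z ^ 12 + 2 * z ^ 11 + c * z ^ 14 + z + 1) (rn stP t s y)) := by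
    refine le_trans (pb_mono ?_) (pb_or _ _ _)
    intro w hw
    by_cases hg : Gd j (4 ^ z : ℕ) ((z ^ 11 : ℕ) : ℝ) w
    · right
      refine ⟨j, le_rfl, fun hgs => hw ⟨?_, GS_mono ha hb hgs⟩⟩
      have := od_lo hg le_rfl
      omega
    · left; exact hg
  have h5 := exit_time (l := z) (δ := z ^ 11) (n := j) hs
  linarith

/-- (A0) `S_LAB` with a rate -/
theorem t_LABR : S_LABR := by
  intro K c P
  filter_upwards [yz_small P (ε := 1 / (3 * (K + 1))) (by positivity), eventually_ge_atTop 16] with z h2 h3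
  intro j hj hj2 s hs
  have hz0 : (16 : ℝ) ≤ z := by exact_mod_cast h3
  have hzp : (0 : ℝ) < z := by linarith
  have e1 : ∀ w : ℤ, id1 (¬ ((j - z ^ 11) / 2 ≤ od j w ∧
      GK ((2 * c + 4) * z ^ 12) ((2 * c + 4) * z ^ 14) (rn stK j s w))) ≤
      id1 (¬ ((j - z ^ 11) / 2 ≤ od j w ∧ GS ((2 * c + 4) * z ^ 12) ((2 * c + 4) * z ^ 14) (rn stP j (0, 0) w))) +
      ∑ i : Fin K, id1 (¬ ((j - z ^ 11) / 2 ≤ od j w ∧ GS ((2 * c + 4) * z ^ 12) ((2 * c + 4) * z ^ 14) (rn stP j (s i) w))) := by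
    intro w
    have hs0 : ∀ i ∈ (univ : Finset (Fin K)), 0 ≤ id1 (¬ ((j - z ^ 11) / 2 ≤ od j w ∧
      GS ((2 * c + 4) * z ^ 12) ((2 * c + 4) * z ^ 14) (rn stP j (s i) w))) := fun _ _ => id1_nonneg _
    by_cases hA : (j - z ^ 11) / 2 ≤ od j w
    · by_cases hG : ∀ i, GS ((2 * c + 4) * z ^ 12) ((2 * c + 4) * z ^ 14) (rn stP j (s i) w)
      · rw [id1_neg (P := ¬ ((j - z ^ 11) / 2 ≤ od j w ∧ GK ((2 * c + 4) * z ^ 12) ((2 * c + 4) * z ^ 14) (rn stK j s w)))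
          (fun hh => hh ⟨hA, fun i => by rw [rn_stK_apply]; exact hG i⟩)]
        exact add_nonneg (id1_nonneg _) (sum_nonneg hs0)
      · push Not at hG
        obtain ⟨i, hi⟩ := hG
        have a1 : (1 : ℝ) ≤ ∑ i : Fin K, id1 (¬ ((j - z ^ 11) / 2 ≤ od j w ∧
            GS ((2 * c + 4) * z ^ 12) ((2 * c + 4) * z ^ 14) (rn stP j (s i) w))) := by
          calc (1 : ℝ) = id1 (¬ ((j - z ^ 11) / 2 ≤ od j w ∧
            GS ((2 * c + 4) * z ^ 12) ((2 * c + 4) * z ^ 14) (rn stP j (s i) w))) := (id1_pos (fun hh => hi hh.2)).symm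
            _ ≤ _ := single_le_sum hs0 (mem_univ i)
        have a2 := id1_le_one (¬ ((j - z ^ 11) / 2 ≤ od j w ∧
          GK ((2 * c + 4) * z ^ 12) ((2 * c + 4) * z ^ 14) (rn stK j s w)))
        have a3 := id1_nonneg (¬ ((j - z ^ 11) / 2 ≤ od j w ∧
          GS ((2 * c + 4) * z ^ 12) ((2 * c + 4) * z ^ 14) (rn stP j (0, 0) w)))
        linarith
    · rw [id1_pos (P := ¬ ((j - z ^ 11) / 2 ≤ od j w ∧ GS ((2 * c + 4) * z ^ 12) ((2 * c + 4) * z ^ 14) (rn stP j (0, 0) w)))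
        (fun hh => hA hh.1)]
      have a2 := id1_le_one (¬ ((j - z ^ 11) / 2 ≤ od j w ∧
          GK ((2 * c + 4) * z ^ 12) ((2 * c + 4) * z ^ 14) (rn stK j s w)))
      have a3 := sum_nonneg hs0
      linarith
  rw [pb_id1]
  refine (ex_mono e1).trans ?_
  rw [ex_add, ex_sum]
  have b0 := lab_pt c h3 hj hj2 (GS_zero (c * z ^ 12) (c * z ^ 14))
  have b1 : ∑ i : Fin K, ex j (fun w => id1 (¬ ((j - z ^ 11) / 2 ≤ od j w ∧
      GS ((2 * c + 4) * z ^ 12) ((2 * c + 4) * z ^ 14) (rn stP j (s i) w)))) ≤ ∑ i : Fin K, 3 * yz z :=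
    sum_le_sum fun i _ => by
      have := lab_pt c h3 hj hj2 (hs i)
      rw [pb_id1] at this
      exact this
  rw [sum_const, card_univ, Fintype.card_fin, nsmul_eq_mul] at b1
  rw [pb_id1] at b0
  have hK1 : (0 : ℝ) < 3 * ((K : ℝ) + 1) := by positivity
  have hzP : (0 : ℝ) < (z : ℝ) ^ P := by positivity
  have h6 : 3 * ((K : ℝ) + 1) * yz z ≤ 1 / (z : ℝ) ^ P := by
    rw [le_div_iff₀ hK1] at h2
    rw [le_div_iff₀ hzP]
    calc 3 * ((K : ℝ) + 1) * yz z * (z : ℝ) ^ P = (z : ℝ) ^ P * yz z * (3 * (K + 1)) := by ring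
      _ ≤ 1 := h2
  linarith

/-- (A0) `S_DV` with a rate -/
theorem t_DVR : S_DVR := by
  intro K c P
  filter_upwards [Pool.Agent.J4H67.KT.t_MIX K (2 * c + 4) (2 * P + 100),
    yz_small (2 * P + 100) (ε := 1 / (K + 1)) (by positivity), eventually_ge_atTop 16] with z h1 h2 h3
  intro j hj hj2 s hs hcm
  have hz0 : (16 : ℝ) ≤ z := by exact_mod_cast h3
  have hzp : (0 : ℝ) < z := by linarith
  have hz1 : (1 : ℝ) ≤ z := by linarith
  have hj1 : 1 ≤ j := le_trans (Nat.one_le_pow _ _ (by omega)) hj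
  have p11 : z ^ 11 ≤ z ^ 12 := Nat.pow_le_pow_right (by omega) (by norm_num)
  have p12 : z ^ 12 ≤ z ^ 14 := Nat.pow_le_pow_right (by omega) (by norm_num)
  have p1 : z ≤ z ^ 14 := Nat.le_self_pow (by norm_num) z
  have p0 : 1 ≤ z ^ 14 := Nat.one_le_pow _ _ (by omega)
  have p20 : z ^ 11 < z ^ 20 := Nat.pow_lt_pow_right (by omega) (by norm_num)
  have ha : c * z ^ 12 + z ^ 11 ≤ (2 * c + 4) * z ^ 12 := by nlinarith [Nat.zero_le (c * z ^ 12)]
  have hb : c * z ^ 12 + 2 * z ^ 11 + c * z ^ 14 + z + 1 ≤ (2 * c + 4) * z ^ 14 := by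
    have := Nat.mul_le_mul_left c p12
    nlinarith
  have hx := x_bd h3 hj1 (by omega : j ≤ 8 * z ^ 20)
  obtain ⟨E, hE⟩ : ∃ E : ℝ, E = 1 / (z : ℝ) ^ (2 * P + 100) + K * (2 * yz z) := ⟨_, rfl⟩
  have hz100 : (0 : ℝ) < (z : ℝ) ^ (2 * P + 100) := by positivity
  have hyz0 := yz_nonneg z
  have hK1 : (0 : ℝ) < (K : ℝ) + 1 := by positivity
  have hyz : (K + 1) * yz z ≤ 1 / (z : ℝ) ^ (2 * P + 100) := by
    rw [le_div_iff₀ hK1] at h2
    rw [le_div_iff₀ hz100]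
    calc (K + 1) * yz z * (z : ℝ) ^ (2 * P + 100) = (z : ℝ) ^ (2 * P + 100) * yz z * (K + 1) := by ring
      _ ≤ 1 := h2
  have hE3 : E ≤ 3 / (z : ℝ) ^ (2 * P + 100) := by
    have e3 : 3 / (z : ℝ) ^ (2 * P + 100) = 3 * (1 / (z : ℝ) ^ (2 * P + 100)) := by ring
    rw [e3, hE]
    have : (K : ℝ) * yz z ≤ (K + 1) * yz z := by nlinarith
    linarith
  have hE0 : 0 ≤ E := by rw [hE]; positivity
  have key := DV_le stK (j := j) (n := 4 * j) (m := z ^ 19) s (Nat.one_le_pow _ _ (by omega)) (by omega) (E := E) (by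
    intro q hq hqj a haj
    have e1 : ∀ y, Gm stK (4 * j) q (rn stK a s y) q ≤ 1 / (z : ℝ) ^ (2 * P + 100) +
        ∑ i : Fin K, id1 (¬ GS ((2 * c + 4) * z ^ 12) ((2 * c + 4) * z ^ 14) (rn stP a (s i) y)) := by
      intro y
      have hs0 : ∀ i ∈ (univ : Finset (Fin K)), 0 ≤ id1 (¬ GS ((2 * c + 4) * z ^ 12) ((2 * c + 4) * z ^ 14)
        (rn stP a (s i) y)) := fun _ _ => id1_nonneg _
      have hpos : 0 < 1 / (z : ℝ) ^ (2 * P + 100) := by positivity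
      by_cases hg : ∀ i, GS ((2 * c + 4) * z ^ 12) ((2 * c + 4) * z ^ 14) (rn stP a (s i) y)
      · have hgk : GK ((2 * c + 4) * z ^ 12) ((2 * c + 4) * z ^ 14) (rn stK a s y) := fun i => by
          rw [rn_stK_apply]; exact hg i
        have b1 := h1 (4 * j) (by omega) (by omega) _ hgk (Cm_rn hcm a y) q q hq (by omega) le_rfl
        have b2 := sum_nonneg hs0
        linarith
      · push Not at hg
        obtain ⟨i, hi⟩ := hg
        have a1 : (1 : ℝ) ≤ ∑ i : Fin K, id1 (¬ GS ((2 * c + 4) * z ^ 12) ((2 * c + 4) * z ^ 14) (rn stP a (s i) y)) := by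
          calc (1 : ℝ) = id1 (¬ GS ((2 * c + 4) * z ^ 12) ((2 * c + 4) * z ^ 14) (rn stP a (s i) y)) := (id1_pos hi).symm
            _ ≤ _ := single_le_sum hs0 (mem_univ i)
        have := Gm_le_one stK (4 * j) q (rn stK a s y) q
        linarith
    refine (ex_mono e1).trans ?_
    rw [ex_add, ex_const, ex_sum, hE]
    have e2 : ∀ i ∈ (univ : Finset (Fin K)), ex a (fun y => id1 (¬ GS ((2 * c + 4) * z ^ 12) ((2 * c + 4) * z ^ 14)
        (rn stP a (s i) y))) ≤ 2 * yz z := by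
      intro i _
      rw [← pb_id1]
      have hper : Per a (fun y => ¬ GS ((2 * c + 4) * z ^ 12) ((2 * c + 4) * z ^ 14) (rn stP a (s i) y)) := by
        intro x u
        simp only
        rw [per_rn stP (s i) (le_refl a) x u]
      rw [← pb_per haj hper]
      refine le_trans ?_ ((exit_time (l := z) (δ := z ^ 11) (n := j) (hs i)).trans (by linarith))
      apply pb_mono
      intro y hy
      exact ⟨a, haj, fun hg => hy (GS_mono ha hb hg)⟩
    have e3 := sum_le_sum e2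
    rw [sum_const, card_univ, Fintype.card_fin, nsmul_eq_mul] at e3
    linarith)
  refine key.trans ?_
  have hjr : (j : ℝ) ≤ 2 * (z : ℝ) ^ 20 := by exact_mod_cast hj2
  have hz20 : (1 : ℝ) ≤ (z : ℝ) ^ 20 := one_le_pow₀ hz1
  have hP0 : (z : ℝ) ^ P ≠ 0 := by positivity
  have hz00 : (z : ℝ) ≠ 0 := hzp.ne'
  have e3 : √ (2 * (((j : ℝ) + 1) * E)) ≤ 5 / ((z : ℝ) ^ P * (z : ℝ) ^ 40) := by
    rw [Real.sqrt_le_left (by positivity)]
    have a1 : ((j : ℝ) + 1) ≤ 3 * (z : ℝ) ^ 20 := by linarith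
    calc 2 * (((j : ℝ) + 1) * E) ≤ 2 * ((3 * (z : ℝ) ^ 20) * (3 / (z : ℝ) ^ (2 * P + 100))) := by gcongr
      _ = 18 / ((z : ℝ) ^ P * (z : ℝ) ^ 40) ^ 2 := by
          rw [pow_add, pow_mul', mul_pow, ← pow_mul]
          field_simp
          norm_num
      _ ≤ 25 / ((z : ℝ) ^ P * (z : ℝ) ^ 40) ^ 2 := by gcongr; norm_num
      _ = (5 / ((z : ℝ) ^ P * (z : ℝ) ^ 40)) ^ 2 := by rw [div_pow]; norm_num
  calc (j : ℝ) * √ (2 * (((j : ℝ) + 1) * E)) ≤ (2 * (z : ℝ) ^ 20) * (5 / ((z : ℝ) ^ P * (z : ℝ) ^ 40)) := by gcongr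
    _ = (1 / (z : ℝ) ^ P) * (10 / (z : ℝ) ^ 20) := by field_simp; norm_num
    _ ≤ (1 / (z : ℝ) ^ P) * 1 := by
        gcongr
        rw [div_le_one (by positivity)]
        calc (10 : ℝ) ≤ z := by linarith
          _ ≤ (z : ℝ) ^ 20 := le_self_pow₀ hz1 (by norm_num)
    _ = 1 / (z : ℝ) ^ P := mul_one _

end Pool.Agent.J4H79.PC2
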