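import Pool.Agent.J4H26.PC.Q0
import Pool.Agent.J4H39.M1

/-! Project PC: (A2) `S_STM` from `S_ST1`. -/

set_option autoImplicit false

namespace Pool.Agent.J4H79.PC2

open Finset Filter Real
open Pool.Agent.J4H39 hiding Ph
open Pool.Agent.J4H26.PC

/-- the window average after `t` steps -/
noncomputable def phi (f : ℤ → ℝ) (t : ℕ) (x a : ℝ) : ℝ :=
  ex t (fun y => Ph f (3 ^ od t y * x / 2 ^ t) (3 ^ od t y * a / 2 ^ t))

theorem Ph_le {f : ℤ → ℝ} (hf : Iv f) (x a : ℝ) (ha : 0 ≤ a) : |Ph f x a| ≤ 2 := by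
  unfold Ph
  have hm : (0 : ℝ) < max a 1 := lt_max_of_lt_right one_pos
  rw [abs_div, abs_of_pos hm, div_le_iff₀ hm]
  have h1 : |∑ n ∈ Finset.Ico ⌈x⌉ ⌈x + a⌉, f n| ≤ ((Finset.Ico ⌈x⌉ ⌈x + a⌉).card : ℝ) := by
    refine (abs_sum_le_sum_abs _ _).trans ?_
    refine (sum_le_sum fun n _ => hf.bd n).trans ?_
    simp
  refine h1.trans ?_
  rw [Int.card_Ico]
  have h2 : (⌈x + a⌉ - ⌈x⌉ : ℤ) ≤ a + 1 := by
    have e1 := Int.ceil_lt_add_one (x + a)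
    have e2 := Int.le_ceil x
    push_cast
    linarith
  have h3 : 0 ≤ ⌈x + a⌉ - ⌈x⌉ := by
    have := Int.ceil_mono (by linarith : x ≤ x + a)
    linarith
  have h4 : (((⌈x + a⌉ - ⌈x⌉).toNat : ℕ) : ℝ) = ((⌈x + a⌉ - ⌈x⌉ : ℤ) : ℝ) := by
    have := Int.toNat_of_nonneg h3
    exact_mod_cast this
  rw [h4]
  have h5 := le_max_left a 1
  have h6 := le_max_right a 1
  push_cast at h2 ⊢
  linarith

theorem phi_comp (f : ℤ → ℝ) (j k : ℕ) (x a : ℝ) : phi f (j + k) x a =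
    ex j (fun y => phi f k (3 ^ od j y * x / 2 ^ j) (3 ^ od j y * a / 2 ^ j)) := by
  unfold phi
  have h := ex_pair j k (fun y z => Ph f (3 ^ od k z * (3 ^ od j y * x / 2 ^ j) / 2 ^ k)
    (3 ^ od k z * (3 ^ od j y * a / 2 ^ j) / 2 ^ k))
    (by intro z y u; simp only; rw [per_od (le_refl j) y u])
    (by intro y z u; simp only; rw [per_od (le_refl k) z u])
  rw [← h]
  apply ex_congr
  intro y
  rw [od_comp]
  congr 1
  · rw [pow_add, pow_add]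
    field_simp
  · rw [pow_add, pow_add]
    field_simp

theorem phi_le {f : ℤ → ℝ} (hf : Iv f) (t : ℕ) (x a : ℝ) (ha : 0 ≤ a) : |phi f t x a| ≤ 2 := by
  unfold phi
  have h := ex_abs_const (s := t) (f := fun y => Ph f (3 ^ od t y * x / 2 ^ t) (3 ^ od t y * a / 2 ^ t))
    (g := fun _ => (0 : ℝ)) (c := 2) (fun y => by
      rw [sub_zero]
      exact Ph_le hf _ _ (by positivity))
  rw [ex_const, sub_zero] at h
  exact h

theorem log3_eq : Real.logb 2 3 = 2 * (1 - th0) := by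
  unfold th0 mu2 Real.logb
  have h2 : Real.log 2 ≠ 0 := (Real.log_pos (by norm_num)).ne'
  have h4 : Real.log 4 = 2 * Real.log 2 := by
    rw [show (4 : ℝ) = 2 ^ 2 by norm_num, Real.log_pow]; norm_num
  rw [h4]
  field_simp
  ring

theorem th0_ge : 1 / 5 ≤ th0 := by
  unfold th0 mu2
  have h2 : 0 < Real.log 2 := Real.log_pos (by norm_num)
  rw [div_le_div_iff₀ (by norm_num) (by positivity)]
  have h : (3 : ℝ) ^ 5 * 2 ^ 2 ≤ 4 ^ 5 := by norm_num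
  have h3 := Real.log_le_log (by positivity) h
  rw [Real.log_mul (by positivity) (by positivity), Real.log_pow, Real.log_pow, Real.log_pow] at h3
  push_cast at h3
  linarith

/-- one stage -/
theorem stage {C₁ : ℝ} (h1 : ∀ j : ℕ, 1 ≤ j → ∀ f : ℤ → ℝ, Iv f → ∀ x a : ℝ, (2 : ℝ) ^ (2 * j) ≤ a →
      |Ph f x a - ex j (fun y => Ph f (3 ^ od j y * x / 2 ^ j) (3 ^ od j y * a / 2 ^ j))| ≤
        C₁ * (j : ℝ) ^ (-(1 / 80) : ℝ))
    {f : ℤ → ℝ} (hf : Iv f) {j k : ℕ} (hj : 1 ≤ j) {x a δ ε R : ℝ} (hδ : 0 ≤ δ) (hε : 0 ≤ ε) (ha : 0 < a)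
    (hja : 2 * (j : ℝ) ≤ Real.logb 2 a) (hR : R + th0 * j + δ ≤ Real.logb 2 a)
    (hk : ∀ x' a' : ℝ, 0 < a' → R ≤ Real.logb 2 a' → |Ph f x' a' - phi f k x' a'| ≤ ε) :
    |Ph f x a - phi f (j + k) x a| ≤ C₁ * (j : ℝ) ^ (-(1 / 80) : ℝ) + ε +
      8 * Real.exp (-(δ ^ 2 / (2 * j))) := by
  have e1 : (2 : ℝ) ^ (2 * j) ≤ a := by
    rw [Real.le_logb_iff_rpow_le (by norm_num) ha] at hja
    have : (2 : ℝ) ^ (2 * j) = (2 : ℝ) ^ (2 * (j : ℝ)) := by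
      rw [← Real.rpow_natCast]; push_cast; rfl
    rw [this]; exact hja
  have e2 := h1 j hj f hf x a e1
  have e3 : |ex j (fun y => Ph f (3 ^ od j y * x / 2 ^ j) (3 ^ od j y * a / 2 ^ j)) - phi f (j + k) x a| ≤
      ex j (fun y => ε + 4 * id1 (δ ≤ |2 * (od j y : ℝ) - j|)) := by
    rw [phi_comp]
    apply ex_abs
    intro y
    have hapos : 0 < 3 ^ od j y * a / 2 ^ j := by positivity
    by_cases hy : δ ≤ |2 * (od j y : ℝ) - j|
    · rw [id1_pos hy]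
      have b1 := Ph_le hf (3 ^ od j y * x / 2 ^ j) (3 ^ od j y * a / 2 ^ j) hapos.le
      have b2 := phi_le hf k (3 ^ od j y * x / 2 ^ j) (3 ^ od j y * a / 2 ^ j) hapos.le
      have b3 := abs_sub (Ph f (3 ^ od j y * x / 2 ^ j) (3 ^ od j y * a / 2 ^ j))
        (phi f k (3 ^ od j y * x / 2 ^ j) (3 ^ od j y * a / 2 ^ j))
      linarith
    · rw [id1_neg hy, mul_zero, add_zero]
      apply hk _ _ hapos
      push Not at hy
      rw [abs_lt] at hy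
      have l1 : Real.logb 2 (3 ^ od j y * a / 2 ^ j) = od j y * Real.logb 2 3 + Real.logb 2 a - j := by
        rw [Real.logb_div (by positivity) (by positivity), Real.logb_mul (by positivity) ha.ne',
          Real.logb_pow, Real.logb_pow, Real.logb_self_eq_one (by norm_num), mul_one]
      rw [l1, log3_eq]
      have h4 := th0_lt
      have h5 := th0_pos
      have h6 : ((j : ℝ) - δ) / 2 * (2 * (1 - th0)) ≤ od j y * (2 * (1 - th0)) :=
        mul_le_mul_of_nonneg_right (by linarith [hy.1]) (by linarith)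
      nlinarith
  have e4 : ex j (fun y => ε + 4 * id1 (δ ≤ |2 * (od j y : ℝ) - j|)) ≤
      ε + 8 * Real.exp (-(δ ^ 2 / (2 * j))) := by
    rw [ex_add, ex_const, ex_mul, ← pb_id1]
    have := pb_od hj hδ
    linarith
  have e5 : |Ph f x a - phi f (j + k) x a| ≤ |Ph f x a - ex j (fun y => Ph f (3 ^ od j y * x / 2 ^ j) (3 ^ od j y * a / 2 ^ j))| +
      |ex j (fun y => Ph f (3 ^ od j y * x / 2 ^ j) (3 ^ od j y * a / 2 ^ j)) - phi f (j + k) x a| :=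
    abs_sub_le _ _ _
  linarith

theorem multi {C₁ : ℝ} (hC₁ : 0 < C₁)
    (h1 : ∀ j : ℕ, 1 ≤ j → ∀ f : ℤ → ℝ, Iv f → ∀ x a : ℝ, (2 : ℝ) ^ (2 * j) ≤ a →
      |Ph f x a - ex j (fun y => Ph f (3 ^ od j y * x / 2 ^ j) (3 ^ od j y * a / 2 ^ j))| ≤
        C₁ * (j : ℝ) ^ (-(1 / 80) : ℝ))
    {w : ℕ} (hw : 3 ≤ w) {f : ℤ → ℝ} (hf : Iv f) (E : ℝ)
    (hE : E = C₁ * ((w : ℝ) ^ 52 / 25) ^ (-(1 / 80) : ℝ) + 8 * Real.exp (-((w : ℝ) ^ 2 / 22))) :
    ∀ n t : ℕ, 2 / 5 * (w : ℝ) ^ 52 ≤ t → (9 / 10 : ℝ) ^ n * t ≤ (w : ℝ) ^ 52 / 2 →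
      (t : ℝ) ≤ 100 * (w : ℝ) ^ 88 → ∀ x a : ℝ, 0 < a →
      th0 * t + 19 / 20 * (w : ℝ) ^ 52 + n * (2 * (w : ℝ) ^ 45) ≤ Real.logb 2 a →
      |Ph f x a - phi f t x a| ≤ (n + 1) * E := by
  obtain ⟨W, hW⟩ : ∃ W : ℝ, W = (w : ℝ) ^ 52 := ⟨_, rfl⟩
  have hw3 : (3 : ℝ) ≤ w := by exact_mod_cast hw
  have hw1 : (1 : ℝ) ≤ w := by linarith
  have hW100 : (100 : ℝ) ≤ W := by
    rw [hW]
    calc (100 : ℝ) ≤ 3 ^ 52 := by norm_num
      _ ≤ (w : ℝ) ^ 52 := pow_le_pow_left₀ (by norm_num) hw3 _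
  rw [← hW] at hE
  have hE1 : C₁ * (W / 25) ^ (-(1 / 80) : ℝ) ≤ E := by
    rw [hE]; have := Real.exp_pos (-((w : ℝ) ^ 2 / 22)); linarith
  have hpw : 0 ≤ C₁ * (W / 25) ^ (-(1 / 80) : ℝ) :=
    mul_nonneg hC₁.le (Real.rpow_nonneg (by linarith) _)
  have hE0 : 0 ≤ E := hpw.trans hE1
  have hrp : ∀ j : ℕ, W / 25 ≤ j → C₁ * (j : ℝ) ^ (-(1 / 80) : ℝ) ≤ C₁ * (W / 25) ^ (-(1 / 80) : ℝ) := by
    intro j hj
    exact mul_le_mul_of_nonneg_left
      (Real.rpow_le_rpow_of_nonpos (by linarith) hj (by norm_num)) hC₁.le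
  have hth := th0_ge
  have hth2 := th0_lt
  have base : ∀ t : ℕ, 2 / 5 * W ≤ t → (t : ℝ) ≤ W / 2 → ∀ x a : ℝ, 0 < a →
      th0 * t + 19 / 20 * W ≤ Real.logb 2 a → |Ph f x a - phi f t x a| ≤ E := by
    intro t ht1 ht2 x a ha hla
    have htt : 1 ≤ t := by
      have : (1 : ℝ) ≤ t := by linarith
      exact_mod_cast this
    have h2t : 2 * (t : ℝ) ≤ Real.logb 2 a := by nlinarith
    have e1 : (2 : ℝ) ^ (2 * t) ≤ a := by
      rw [Real.le_logb_iff_rpow_le (by norm_num) ha] at h2t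
      have : (2 : ℝ) ^ (2 * t) = (2 : ℝ) ^ (2 * (t : ℝ)) := by
        rw [← Real.rpow_natCast]; push_cast; rfl
      rw [this]; exact h2t
    exact (h1 t htt f hf x a e1).trans ((hrp t (by linarith)).trans hE1)
  rw [← hW]
  intro n
  induction n with
  | zero =>
    intro t ht1 ht2 ht3 x a ha hla
    simp only [pow_zero, one_mul, Nat.cast_zero, zero_mul, add_zero, zero_add] at ht2 hla ⊢
    exact base t ht1 ht2 x a ha hla
  | succ n ih =>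
    intro t ht1 ht2 ht3 x a ha hla
    have hw45 : 0 ≤ (w : ℝ) ^ 45 := by positivity
    have hn0 : (0 : ℝ) ≤ n := Nat.cast_nonneg _
    push_cast at hla ⊢
    by_cases hs : (t : ℝ) ≤ W / 2
    · refine (base t ht1 hs x a ha ?_).trans ?_
      · have : 0 ≤ ((n : ℝ) + 1) * (2 * (w : ℝ) ^ 45) := by positivity
        linarith
      · nlinarith
    · push Not at hs
      obtain ⟨j, hj⟩ : ∃ j : ℕ, j = t / 10 + 1 := ⟨_, rfl⟩
      have ht100 : 20 ≤ t := by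
        have : (20 : ℝ) ≤ t := by linarith
        exact_mod_cast this
      obtain ⟨k, hk⟩ : ∃ k : ℕ, t = j + k := ⟨t - j, by omega⟩
      have hj1 : (t : ℝ) / 10 ≤ j := by
        rw [div_le_iff₀ (by norm_num)]
        have : t ≤ j * 10 := by omega
        exact_mod_cast this
      have hj2 : (j : ℝ) ≤ t / 10 + 1 := by
        have : 10 * j ≤ t + 10 := by omega
        have : (10 : ℝ) * j ≤ t + 10 := by exact_mod_cast this
        linarith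
      have htk : (t : ℝ) = j + k := by exact_mod_cast hk
      have hk1 : 2 / 5 * W ≤ k := by linarith
      have hk2 : (9 / 10 : ℝ) ^ n * k ≤ W / 2 := by
        have h9 : (0 : ℝ) ≤ (9 / 10) ^ n := by positivity
        calc (9 / 10 : ℝ) ^ n * k ≤ (9 / 10) ^ n * (9 / 10 * t) :=
              mul_le_mul_of_nonneg_left (by linarith) h9
          _ = (9 / 10) ^ (n + 1) * t := by ring
          _ ≤ W / 2 := ht2
      have hst := stage h1 hf (j := j) (k := k) (by omega) (x := x) (a := a) (δ := (w : ℝ) ^ 45)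
        (ε := (n + 1) * E) (R := th0 * k + 19 / 20 * W + n * (2 * (w : ℝ) ^ 45)) hw45
        (by positivity) ha (by nlinarith) (by
          have e : th0 * k + 19 / 20 * W + n * (2 * (w : ℝ) ^ 45) + th0 * j + (w : ℝ) ^ 45 =
            th0 * (j + k) + 19 / 20 * W + n * (2 * (w : ℝ) ^ 45) + (w : ℝ) ^ 45 := by ring
          rw [e, ← htk]
          linarith)
        (fun x' a' ha' hR' => ih k hk1 hk2 (by have : (0 : ℝ) ≤ j := Nat.cast_nonneg _; linarith) x' a' ha' hR')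
      rw [← hk] at hst
      have hj3 : C₁ * (j : ℝ) ^ (-(1 / 80) : ℝ) ≤ C₁ * (W / 25) ^ (-(1 / 80) : ℝ) := hrp j (by linarith)
      have hexp : Real.exp (-(((w : ℝ) ^ 45) ^ 2 / (2 * j))) ≤ Real.exp (-((w : ℝ) ^ 2 / 22)) := by
        apply Real.exp_le_exp.2
        apply neg_le_neg
        have hjp : (0 : ℝ) < j := by linarith
        have hw88 : (1 : ℝ) ≤ (w : ℝ) ^ 88 := one_le_pow₀ hw1
        have hjb : (j : ℝ) ≤ 11 * (w : ℝ) ^ 88 := by linarith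
        rw [div_le_div_iff₀ (by norm_num) (by positivity)]
        calc (w : ℝ) ^ 2 * (2 * j) ≤ (w : ℝ) ^ 2 * (2 * (11 * (w : ℝ) ^ 88)) := by gcongr
          _ = ((w : ℝ) ^ 45) ^ 2 * 22 := by ring
      rw [hE]
      rw [hE] at hst
      linarith

theorem asym : ∀ᶠ w : ℕ in atTop, ((⌈500 * Real.log w⌉₊ : ℝ) + 1) ≤ (w : ℝ) ^ (1 / 10 : ℝ) := by
  have h1 : (fun x : ℝ => Real.log x) =o[atTop] fun x : ℝ => x ^ (1 / 10 : ℝ) :=
    isLittleO_log_rpow_atTop (by norm_num)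
  have h2 := (h1.bound (by norm_num : (0 : ℝ) < 1 / 1000))
  have h3 : Tendsto (fun x : ℝ => x ^ (1 / 10 : ℝ)) atTop atTop := tendsto_rpow_atTop (by norm_num)
  have h4 := h3.eventually_ge_atTop 4
  have h5 : ∀ᶠ x : ℝ in atTop, 500 * Real.log x + 2 ≤ x ^ (1 / 10 : ℝ) := by
    filter_upwards [h2, h4, eventually_ge_atTop 1] with x a1 a2 a3
    rw [Real.norm_eq_abs, Real.norm_eq_abs, abs_of_nonneg (Real.log_nonneg a3),
      abs_of_nonneg (by positivity)] at a1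
    linarith
  have h6 := tendsto_natCast_atTop_atTop (R := ℝ) |>.eventually h5
  filter_upwards [h6, eventually_ge_atTop 1] with w a1 a2
  have a3 : (⌈500 * Real.log w⌉₊ : ℝ) < 500 * Real.log w + 1 :=
    Nat.ceil_lt_add_one (mul_nonneg (by norm_num) (Real.log_nonneg (by exact_mod_cast a2)))
  linarith

theorem t_STM : S_ST1 → S_STM := by
  rintro ⟨C₁, hC₁, h1⟩
  refine ⟨2 * C₁ + 1, by linarith, ?_⟩
  filter_upwards [asym, eventually_ge_atTop 1000] with w hn hw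
  intro t ht1 ht2 f hf x a ha
  have hw0 : (1000 : ℝ) ≤ w := by exact_mod_cast hw
  have hw1 : (1 : ℝ) ≤ w := by linarith
  have hwp : (0 : ℝ) < w := by linarith
  obtain ⟨n, hn'⟩ : ∃ n : ℕ, n = ⌈500 * Real.log w⌉₊ := ⟨_, rfl⟩
  rw [← hn'] at hn
  have hnlog : 500 * Real.log w ≤ n := by rw [hn']; exact Nat.le_ceil _
  obtain ⟨E, hE⟩ : ∃ E : ℝ, E = C₁ * ((w : ℝ) ^ 52 / 25) ^ (-(1 / 80) : ℝ) +
    8 * Real.exp (-((w : ℝ) ^ 2 / 22)) := ⟨_, rfl⟩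
  have ht1' : (w : ℝ) ^ 52 ≤ t := by exact_mod_cast ht1
  have ht2' : (t : ℝ) ≤ 100 * (w : ℝ) ^ 88 := by exact_mod_cast ht2
  have hW0 : (0 : ℝ) < (w : ℝ) ^ 52 := by positivity
  have hapos : 0 < a := lt_of_lt_of_le (by positivity) ha
  have hla : th0 * t + (w : ℝ) ^ 52 ≤ Real.logb 2 a := by
    rw [Real.le_logb_iff_rpow_le (by norm_num) hapos]
    exact ha
  have hwr : (w : ℝ) ^ (1 / 10 : ℝ) ≤ w := by
    calc (w : ℝ) ^ (1 / 10 : ℝ) ≤ (w : ℝ) ^ (1 : ℝ) :=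
          Real.rpow_le_rpow_of_exponent_le hw1 (by norm_num)
      _ = w := Real.rpow_one _
  have hnw : (n : ℝ) ≤ w := by linarith
  -- the number of stages
  have h9 : (9 / 10 : ℝ) ^ n * t ≤ (w : ℝ) ^ 52 / 2 := by
    have e1 : (9 / 10 : ℝ) ≤ Real.exp (-(1 / 10)) := by
      have := Real.add_one_le_exp (-(1 / 10) : ℝ)
      linarith
    have e2 : (9 / 10 : ℝ) ^ n ≤ ((w : ℝ) ^ 50)⁻¹ := by
      calc (9 / 10 : ℝ) ^ n ≤ Real.exp (-(1 / 10)) ^ n := pow_le_pow_left₀ (by norm_num) e1 n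
        _ = Real.exp (-(n / 10)) := by rw [← Real.exp_nat_mul]; congr 1; ring
        _ ≤ Real.exp (-(50 * Real.log w)) := Real.exp_le_exp.2 (by linarith)
        _ = ((w : ℝ) ^ 50)⁻¹ := by
          rw [Real.exp_neg]
          congr 1
          have : (50 : ℝ) * Real.log w = Real.log ((w : ℝ) ^ 50) := by
            rw [Real.log_pow]; norm_num
          rw [this, Real.exp_log (by positivity)]
    calc (9 / 10 : ℝ) ^ n * t ≤ ((w : ℝ) ^ 50)⁻¹ * (100 * (w : ℝ) ^ 88) := by gcongr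
      _ = 100 * (w : ℝ) ^ 38 := by
        field_simp
      _ ≤ (w : ℝ) ^ 52 / 2 := by
        have : (200 : ℝ) ≤ (w : ℝ) ^ 14 := by
          calc (200 : ℝ) ≤ w := by linarith
            _ ≤ (w : ℝ) ^ 14 := le_self_pow₀ hw1 (by norm_num)
        have h38 : (0 : ℝ) ≤ (w : ℝ) ^ 38 := by positivity
        have := mul_le_mul_of_nonneg_right this h38
        have e : (w : ℝ) ^ 14 * (w : ℝ) ^ 38 = (w : ℝ) ^ 52 := by ring
        rw [e] at this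
        linarith
  have hsl : (n : ℝ) * (2 * (w : ℝ) ^ 45) ≤ (w : ℝ) ^ 52 / 20 := by
    have h6 : (40 : ℝ) ≤ (w : ℝ) ^ 6 := by
      calc (40 : ℝ) ≤ w := by linarith
        _ ≤ (w : ℝ) ^ 6 := le_self_pow₀ hw1 (by norm_num)
    calc (n : ℝ) * (2 * (w : ℝ) ^ 45) ≤ w * (2 * (w : ℝ) ^ 45) := by gcongr
      _ = (40 * (w : ℝ) ^ 46) / 20 := by ring
      _ ≤ ((w : ℝ) ^ 6 * (w : ℝ) ^ 46) / 20 := by gcongr
      _ = (w : ℝ) ^ 52 / 20 := by ring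
  have hmain := multi hC₁ h1 (w := w) (by omega) hf E hE n t (by linarith) h9 ht2' x a hapos
    (by linarith)
  refine hmain.trans ?_
  -- the final estimate
  have hs : √ (w : ℝ) = (w : ℝ) ^ (1 / 2 : ℝ) := Real.sqrt_eq_rpow _
  have hE0 : 0 ≤ E := by rw [hE]; positivity
  have hE1 : E ≤ 2 * C₁ * (w : ℝ) ^ (-(13 / 20) : ℝ) + 176 * (w : ℝ) ^ (-2 : ℝ) := by
    rw [hE]
    have a1 : ((w : ℝ) ^ 52 / 25) ^ (-(1 / 80) : ℝ) ≤ 2 * (w : ℝ) ^ (-(13 / 20) : ℝ) := by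
      have b1 : ((w : ℝ) ^ 52 / 25) = (w : ℝ) ^ (52 : ℝ) * (25 : ℝ)⁻¹ := by
        rw [div_eq_mul_inv]; congr 1
        rw [← Real.rpow_natCast]; norm_num
      rw [b1, Real.mul_rpow (by positivity) (by norm_num), ← Real.rpow_mul hwp.le]
      have b2 : (52 : ℝ) * -(1 / 80) = -(13 / 20) := by norm_num
      rw [b2, mul_comm]
      apply mul_le_mul_of_nonneg_right _ (by positivity)
      have b3 : ((25 : ℝ)⁻¹) ^ (-(1 / 80) : ℝ) = 25 ^ (1 / 80 : ℝ) := by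
        rw [Real.inv_rpow (by norm_num), Real.rpow_neg (by norm_num), inv_inv]
      rw [b3]
      calc (25 : ℝ) ^ (1 / 80 : ℝ) ≤ (32 : ℝ) ^ (1 / 80 : ℝ) :=
            Real.rpow_le_rpow (by norm_num) (by norm_num) (by norm_num)
        _ ≤ (32 : ℝ) ^ (1 / 5 : ℝ) := Real.rpow_le_rpow_of_exponent_le (by norm_num) (by norm_num)
        _ = 2 := by
          rw [show (32 : ℝ) = 2 ^ (5 : ℝ) by norm_num, ← Real.rpow_mul (by norm_num)]
          norm_num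
    have a2 : Real.exp (-((w : ℝ) ^ 2 / 22)) ≤ 22 * (w : ℝ) ^ (-2 : ℝ) := by
      have c1 : (w : ℝ) ^ (-2 : ℝ) = ((w : ℝ) ^ 2)⁻¹ := by
        rw [Real.rpow_neg hwp.le]; norm_num
      rw [c1, Real.exp_neg, ← div_eq_mul_inv, inv_eq_one_div]
      have c2 := Real.add_one_le_exp ((w : ℝ) ^ 2 / 22)
      rw [div_le_div_iff₀ (Real.exp_pos _) (by positivity)]
      linarith
    have := mul_le_mul_of_nonneg_left a1 hC₁.le
    linarith
  have hfin : ((n : ℝ) + 1) * E ≤ (w : ℝ) ^ (1 / 10 : ℝ) *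
      (2 * C₁ * (w : ℝ) ^ (-(13 / 20) : ℝ) + 176 * (w : ℝ) ^ (-2 : ℝ)) :=
    mul_le_mul hn hE1 hE0 (by positivity)
  refine hfin.trans ?_
  rw [hs, le_div_iff₀ (by positivity)]
  have d1 : (w : ℝ) ^ (1 / 10 : ℝ) * (2 * C₁ * (w : ℝ) ^ (-(13 / 20) : ℝ) + 176 * (w : ℝ) ^ (-2 : ℝ)) *
      (w : ℝ) ^ (1 / 2 : ℝ) = 2 * C₁ * (w : ℝ) ^ (-(1 / 20) : ℝ) + 176 * (w : ℝ) ^ (-(7 / 5) : ℝ) := by
    have e1 : (w : ℝ) ^ (1 / 10 : ℝ) * (w : ℝ) ^ (-(13 / 20) : ℝ) * (w : ℝ) ^ (1 / 2 : ℝ) =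
        (w : ℝ) ^ (-(1 / 20) : ℝ) := by
      rw [← Real.rpow_add hwp, ← Real.rpow_add hwp]; norm_num
    have e2 : (w : ℝ) ^ (1 / 10 : ℝ) * (w : ℝ) ^ (-2 : ℝ) * (w : ℝ) ^ (1 / 2 : ℝ) =
        (w : ℝ) ^ (-(7 / 5) : ℝ) := by
      rw [← Real.rpow_add hwp, ← Real.rpow_add hwp]; norm_num
    rw [← e1, ← e2]
    ring
  rw [d1]
  have f1 : (w : ℝ) ^ (-(1 / 20) : ℝ) ≤ 1 := Real.rpow_le_one_of_one_le_of_nonpos hw1 (by norm_num)
  have f2 : 176 * (w : ℝ) ^ (-(7 / 5) : ℝ) ≤ 1 := by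
    have g1 : (w : ℝ) ^ (-(7 / 5) : ℝ) ≤ (w : ℝ) ^ (-1 : ℝ) :=
      Real.rpow_le_rpow_of_exponent_le hw1 (by norm_num)
    rw [Real.rpow_neg_one] at g1
    have g2 : 176 * (w : ℝ)⁻¹ ≤ 1 := by
      rw [← div_eq_mul_inv, div_le_one hwp]; linarith
    linarith
  have f3 : 2 * C₁ * (w : ℝ) ^ (-(1 / 20) : ℝ) ≤ 2 * C₁ * 1 :=
    mul_le_mul_of_nonneg_left f1 (by linarith)
  linarith

end Pool.Agent.J4H79.PC2
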