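import Pool.Agent.J4H26.PC.Q1
import Pool.Agent.J4H79.PC2.Stm

/-! Project PC: (B4) `S_A` from `S_KEYR`. -/

set_option autoImplicit false

namespace Pool.Agent.J4H79.PC2

open Finset Filter Real
open Pool.Agent.J4H39 hiding Ph
open Pool.Agent.J4H26.PC

theorem th0_le : th0 ≤ 5 / 24 := by
  unfold th0 mu2
  have h2 : 0 < Real.log 2 := Real.log_pos (by norm_num)
  rw [div_le_iff₀ (by positivity)]
  have e1 : Real.log 4 - Real.log 3 = Real.log (4 / 3) := by rw [Real.log_div (by norm_num) (by norm_num)]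
  rw [e1]
  have e2 : 12 * Real.log (4 / 3) = Real.log ((4 / 3) ^ 12) := by rw [Real.log_pow]; norm_num
  have e3 : 5 * Real.log 2 = Real.log (2 ^ 5) := by rw [Real.log_pow]; norm_num
  have e4 : Real.log ((4 / 3) ^ 12) ≤ Real.log (2 ^ 5) := Real.log_le_log (by positivity) (by norm_num)
  rw [← e2, ← e3] at e4
  linarith

/-- the last step: a window comparable to the range -/
theorem VV_final {ψ : ℝ → ℝ} {f : ℤ → ℝ} {κ q : ℝ} (h : Cent ψ f κ q) {a N : ℝ} (ha : 0 < a) (haN : a ≤ N)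
    (hN : 2 ≤ N) : VV f κ a N ≤ (ψ N * (N / a)) ^ 2 + 4 * (a / N) := by
  have hN0 : 0 < N := by linarith
  have hψ0 : 0 ≤ ψ N * N := (abs_nonneg _).trans (h.mean N (κ * N) (κ * N) hN le_rfl le_rfl (by linarith))
  have hM0 : 0 ≤ ψ N * (N / a) := by rw [← mul_div_assoc]; positivity
  unfold VV
  rw [div_le_iff₀ hN0]
  have e0 : ((ψ N * (N / a)) ^ 2 + 4 * (a / N)) * N = (ψ N * (N / a)) ^ 2 * N + 4 * a := by
    field_simp
  rw [e0]
  by_cases hI : IntervalIntegrable (fun x => (Ph f x a) ^ 2) MeasureTheory.volume (κ * N) (κ * N + N)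
  · have h1 : IntervalIntegrable (fun x => (Ph f x a) ^ 2) MeasureTheory.volume (κ * N) (κ * N + N - a) :=
      hI.mono_set (by
        rw [Set.uIcc_of_le (by linarith), Set.uIcc_of_le (by linarith)]
        exact Set.Icc_subset_Icc le_rfl (by linarith))
    have h2 : IntervalIntegrable (fun x => (Ph f x a) ^ 2) MeasureTheory.volume (κ * N + N - a) (κ * N + N) :=
      hI.mono_set (by
        rw [Set.uIcc_of_le (by linarith), Set.uIcc_of_le (by linarith)]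
        exact Set.Icc_subset_Icc (by linarith) le_rfl)
    rw [← intervalIntegral.integral_add_adjacent_intervals h1 h2]
    have b1 : ‖∫ x in (κ * N)..(κ * N + N - a), (Ph f x a) ^ 2‖ ≤ (ψ N * (N / a)) ^ 2 * |κ * N + N - a - κ * N| := by
      apply intervalIntegral.norm_integral_le_of_norm_le_const
      intro x hx
      rw [Set.uIoc_of_le (by linarith)] at hx
      have b := h.mean N x (x + a) hN hx.1.le (by linarith) (by linarith [hx.2])
      rw [Real.norm_eq_abs, abs_of_nonneg (sq_nonneg _)]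
      rw [← sq_abs]
      apply pow_le_pow_left₀ (abs_nonneg _)
      unfold Ph
      have hm : (0 : ℝ) < max a 1 := lt_max_of_lt_right one_pos
      rw [abs_div, abs_of_pos hm, div_le_iff₀ hm]
      refine b.trans ?_
      calc ψ N * N = ψ N * (N / a) * a := by field_simp
        _ ≤ ψ N * (N / a) * max a 1 := by gcongr; exact le_max_left _ _
    have b2 : ‖∫ x in (κ * N + N - a)..(κ * N + N), (Ph f x a) ^ 2‖ ≤ 4 * |κ * N + N - (κ * N + N - a)| := by
      apply intervalIntegral.norm_integral_le_of_norm_le_const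
      intro x hx
      rw [Real.norm_eq_abs, abs_of_nonneg (sq_nonneg _), ← sq_abs]
      calc |Ph f x a| ^ 2 ≤ 2 ^ 2 := pow_le_pow_left₀ (abs_nonneg _) (Ph_le h.iv x a ha.le) 2
        _ = 4 := by norm_num
    have c1 : |κ * N + N - a - κ * N| = N - a := by rw [abs_of_nonneg (by linarith)]; ring
    have c2 : |κ * N + N - (κ * N + N - a)| = a := by rw [abs_of_nonneg (by linarith)]; ring
    rw [c1] at b1
    rw [c2] at b2
    have d1 := (le_abs_self _).trans b1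
    have d2 := (le_abs_self _).trans b2
    have d3 : (ψ N * (N / a)) ^ 2 * (N - a) ≤ (ψ N * (N / a)) ^ 2 * N := by
      apply mul_le_mul_of_nonneg_left (by linarith) (sq_nonneg _)
    linarith
  · rw [intervalIntegral.integral_undef hI]
    positivity

theorem greatest (P : ℕ → Prop) [DecidablePred P] {a n : ℕ} (ha : P a) (han : a ≤ n) (hn : ∀ m, P m → m ≤ n) :
    ∃ w, a ≤ w ∧ P w ∧ ¬ P (w + 1) := by
  refine ⟨Nat.findGreatest P n, Nat.le_findGreatest han ha, Nat.findGreatest_spec han ha, fun h => ?_⟩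
  have := Nat.le_findGreatest (hn _ h) h
  omega

theorem two80 {w : ℕ} (hw : 200 ≤ w) : (w + 1) ^ 80 ≤ 2 * w ^ 80 := by
  have hwr : (200 : ℝ) ≤ w := by exact_mod_cast hw
  have hwp : (0 : ℝ) < w := by linarith
  have h4 : ((w : ℝ) + 1) ^ 80 ≤ 2 * (w : ℝ) ^ 80 := by
    have e1 : (w : ℝ) + 1 ≤ w * Real.exp (1 / w) := by
      have := Real.add_one_le_exp (1 / (w : ℝ))
      calc (w : ℝ) + 1 = w * (1 / w + 1) := by field_simp; ring
        _ ≤ w * Real.exp (1 / w) := by gcongr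
    calc ((w : ℝ) + 1) ^ 80 ≤ (w * Real.exp (1 / w)) ^ 80 := by gcongr
      _ = (w : ℝ) ^ 80 * Real.exp (80 * (1 / w)) := by
          rw [mul_pow, ← Real.exp_nat_mul]
          norm_num
      _ ≤ (w : ℝ) ^ 80 * 2 := by
          gcongr
          rw [← Real.le_log_iff_exp_le (by norm_num)]
          have := Real.log_two_gt_d9
          have h5 : 80 * (1 / (w : ℝ)) ≤ 80 * (1 / 200) := by gcongr
          linarith
      _ = 2 * (w : ℝ) ^ 80 := by ring
  exact_mod_cast h4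

/-- a root of a natural number -/
theorem root80 {j w1 : ℕ} (hw : 200 ≤ w1) (hj : w1 ^ 80 ≤ j) : ∃ w : ℕ, w1 ≤ w ∧ w ^ 80 ≤ j ∧ j ≤ 2 * w ^ 80 := by
  have hs : ∀ m : ℕ, m ≤ m ^ 80 := fun m => Nat.le_self_pow (by norm_num) m
  obtain ⟨w, h1, h2, h3⟩ := greatest (fun w => w ^ 80 ≤ j) hj ((hs _).trans hj) (fun m hm => (hs m).trans hm)
  refine ⟨w, h1, h2, ?_⟩
  have h4 := two80 (hw.trans h1)
  have h5 : j < (w + 1) ^ 80 := not_le.mp h3
  exact h5.le.trans h4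

theorem pot {C l l' : ℝ} {w j : ℕ} (hC : 0 ≤ C) (hl : 200 ≤ l) (hl' : 0 < l') (hll : l' ≤ 3 / 5 * l)
    (hj : l / 40 ≤ j) (hw : j ≤ 2 * w ^ 80) (hw0 : 0 < w) :
    C / √w ≤ C * 80 ^ (1 / 160 : ℝ) / ((3 / 5 : ℝ) ^ (-(1 / 160) : ℝ) - 1) *
      (l' ^ (-(1 / 160) : ℝ) - l ^ (-(1 / 160) : ℝ)) := by
  have hl0 : 0 < l := by linarith
  have hwp : (0 : ℝ) < w := by exact_mod_cast hw0
  have hc : 0 < (3 / 5 : ℝ) ^ (-(1 / 160) : ℝ) - 1 := by
    have : (1 : ℝ) < (3 / 5 : ℝ) ^ (-(1 / 160) : ℝ) :=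
      Real.one_lt_rpow_of_pos_of_lt_one_of_neg (by norm_num) (by norm_num) (by norm_num)
    linarith
  have h1 : (3 / 5 : ℝ) ^ (-(1 / 160) : ℝ) * l ^ (-(1 / 160) : ℝ) ≤ l' ^ (-(1 / 160) : ℝ) := by
    rw [← Real.mul_rpow (by norm_num) hl0.le]
    exact Real.rpow_le_rpow_of_nonpos hl' hll (by norm_num)
  have h2 : ((3 / 5 : ℝ) ^ (-(1 / 160) : ℝ) - 1) * l ^ (-(1 / 160) : ℝ) ≤
      l' ^ (-(1 / 160) : ℝ) - l ^ (-(1 / 160) : ℝ) := by linarith
  have h3 : (l / 80) ^ (1 / 160 : ℝ) ≤ √w := by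
    have e1 : l / 80 ≤ (w : ℝ) ^ (80 : ℕ) := by
      have : (j : ℝ) ≤ 2 * (w : ℝ) ^ 80 := by exact_mod_cast hw
      linarith
    calc (l / 80) ^ (1 / 160 : ℝ) ≤ ((w : ℝ) ^ (80 : ℕ)) ^ (1 / 160 : ℝ) :=
          Real.rpow_le_rpow (by positivity) e1 (by norm_num)
      _ = √w := by
          rw [Real.sqrt_eq_rpow, ← Real.rpow_natCast, ← Real.rpow_mul hwp.le]
          norm_num
  have h4 : (0 : ℝ) < (l / 80) ^ (1 / 160 : ℝ) := by positivity
  have h5 : (l / 80) ^ (1 / 160 : ℝ) = l ^ (1 / 160 : ℝ) / 80 ^ (1 / 160 : ℝ) :=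
    Real.div_rpow hl0.le (by norm_num) _
  calc C / √w ≤ C / (l / 80) ^ (1 / 160 : ℝ) := by gcongr
    _ = C * 80 ^ (1 / 160 : ℝ) * l ^ (-(1 / 160) : ℝ) := by
        rw [h5, Real.rpow_neg hl0.le]
        field_simp
    _ = C * 80 ^ (1 / 160 : ℝ) / ((3 / 5 : ℝ) ^ (-(1 / 160) : ℝ) - 1) *
        (((3 / 5 : ℝ) ^ (-(1 / 160) : ℝ) - 1) * l ^ (-(1 / 160) : ℝ)) := by
        field_simp
    _ ≤ _ := by gcongr

theorem w88 {x y : ℝ} (hx : 0 ≤ x) (hy : 0 ≤ y) (h : x ^ 80 ≤ 5 * y ^ 80) : x ^ 88 ≤ 6 * y ^ 88 := by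
  have e : ∀ z : ℝ, (z ^ 88) ^ 10 = (z ^ 80) ^ 11 := by
    intro z
    ring
  have h2 : (x ^ 88) ^ 10 ≤ (6 * y ^ 88) ^ 10 := by
    rw [mul_pow, e, e]
    calc (x ^ 80) ^ 11 ≤ (5 * y ^ 80) ^ 11 := pow_le_pow_left₀ (pow_nonneg hx 80) h 11
      _ = 5 ^ 11 * (y ^ 80) ^ 11 := mul_pow _ _ _
      _ ≤ 6 ^ 10 * (y ^ 80) ^ 11 := mul_le_mul_of_nonneg_right (by norm_num) (pow_nonneg (pow_nonneg hy 80) 11)
  exact le_of_pow_le_pow_left₀ (by norm_num) (mul_nonneg (by norm_num) (pow_nonneg hy 88)) h2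

/-- from band to band, down to a fixed ratio of the range and the window -/
theorem bands {C : ℝ} (hC : 0 < C) {w1 : ℕ} (hw1 : 200 ≤ w1)
    (key : ∀ w : ℕ, w1 ≤ w → ∀ j, w ^ 80 ≤ j → j ≤ 2 * w ^ 80 → ∀ f : ℤ → ℝ, Iv f →
      ∀ κ : ℝ, |κ| ≤ 1 → ∀ ρ a : ℝ, (2 : ℝ) ^ (20 * j) ≤ ρ → (w : ℝ) ^ 88 ≤ logb 2 a →
      VV f κ a (ρ * a) ≤ VV f κ (2 ^ ⌊48 * th0 * j⌋₊ * a) (ρ * a) + C / √w)
    {ψ : ℝ → ℝ} {f : ℤ → ℝ} {κ q : ℝ} (h : Cent ψ f κ q) {K N : ℝ} (hK : 200 ≤ K) (hK2 : 40 * (w1 : ℝ) ^ 80 ≤ K)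
    (hN : 2 ≤ N) : ∀ n : ℕ, ∀ a : ℝ, 0 < a → K / 3 ≤ logb 2 (N / a) → logb 2 (N / a) ≤ n →
      (∀ w : ℕ, 20 * (w : ℝ) ^ 80 ≤ logb 2 (N / a) → (w : ℝ) ^ 88 ≤ logb 2 a) →
      VV f κ a N ≤ (ψ N * 2 ^ K) ^ 2 + 4 * 2 ^ (-(K / 3)) +
        C * 80 ^ (1 / 160 : ℝ) / ((3 / 5 : ℝ) ^ (-(1 / 160) : ℝ) - 1) *
          ((K / 3) ^ (-(1 / 160) : ℝ) - (logb 2 (N / a)) ^ (-(1 / 160) : ℝ)) := by
  have hN0 : 0 < N := by linarith
  have hψ0 : 0 ≤ ψ N := by
    have : 0 ≤ ψ N * N := (abs_nonneg _).trans (h.mean N (κ * N) (κ * N) hN le_rfl le_rfl (by linarith))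
    exact nonneg_of_mul_nonneg_left this hN0
  have hc : 0 < (3 / 5 : ℝ) ^ (-(1 / 160) : ℝ) - 1 := by
    have : (1 : ℝ) < (3 / 5 : ℝ) ^ (-(1 / 160) : ℝ) :=
      Real.one_lt_rpow_of_pos_of_lt_one_of_neg (by norm_num) (by norm_num) (by norm_num)
    linarith
  obtain ⟨D, hD⟩ : ∃ D : ℝ, D = C * 80 ^ (1 / 160 : ℝ) / ((3 / 5 : ℝ) ^ (-(1 / 160) : ℝ) - 1) := ⟨_, rfl⟩
  have hD0 : 0 ≤ D := by rw [hD]; positivity
  rw [← hD]
  intro n
  induction n with
  | zero =>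
    intro a ha h1 h2 _
    push_cast at h2
    linarith
  | succ n ih =>
    intro a ha h1 h2 h3
    obtain ⟨l, hl⟩ : ∃ l : ℝ, l = logb 2 (N / a) := ⟨_, rfl⟩
    rw [← hl] at h1 h2 h3 ⊢
    have hl0 : 0 < l := by linarith
    have hNa : 0 < N / a := by positivity
    have hpow : (2 : ℝ) ^ l = N / a := by rw [hl]; exact Real.rpow_logb (by norm_num) (by norm_num) hNa
    rcases le_or_gt l K with hlK | hlK
    · have h4 : 1 ≤ N / a := by rw [← hpow]; exact Real.one_le_rpow (by norm_num) hl0.le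
      have haN : a ≤ N := by rwa [one_le_div ha] at h4
      refine (VV_final h ha haN hN).trans ?_
      have e1 : (ψ N * (N / a)) ^ 2 ≤ (ψ N * 2 ^ K) ^ 2 := by
        rw [← hpow]
        apply pow_le_pow_left₀ (by positivity)
        gcongr
        norm_num
      have e2 : a / N ≤ 2 ^ (-(K / 3)) := by
        have : a / N = (2 : ℝ) ^ (-l) := by rw [Real.rpow_neg (by norm_num), hpow, inv_div]
        rw [this]
        exact Real.rpow_le_rpow_of_exponent_le (by norm_num) (by linarith)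
      have e3 : l ^ (-(1 / 160) : ℝ) ≤ (K / 3) ^ (-(1 / 160) : ℝ) :=
        Real.rpow_le_rpow_of_nonpos (by linarith) h1 (by norm_num)
      have e4 : 0 ≤ D * ((K / 3) ^ (-(1 / 160) : ℝ) - l ^ (-(1 / 160) : ℝ)) :=
        mul_nonneg hD0 (by linarith)
      linarith
    · obtain ⟨j, hj⟩ : ∃ j : ℕ, j = ⌊l / 20⌋₊ := ⟨_, rfl⟩
      have hj1 : (j : ℝ) ≤ l / 20 := by rw [hj]; exact Nat.floor_le (by positivity)
      have hj2 : l / 20 < j + 1 := by rw [hj]; exact Nat.lt_floor_add_one _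
      have hj3 : l / 40 ≤ j := by linarith
      have hj4 : w1 ^ 80 ≤ j := by
        have : (w1 : ℝ) ^ 80 ≤ j := by linarith
        exact_mod_cast this
      obtain ⟨w, hw, hwj, hjw⟩ := root80 hw1 hj4
      have hwjr : (w : ℝ) ^ 80 ≤ j := by exact_mod_cast hwj
      have hk := key w hw j hwj hjw f h.iv κ h.kp (N / a) a (by
        rw [← hpow, ← Real.rpow_natCast]
        apply Real.rpow_le_rpow_of_exponent_le (by norm_num)
        push_cast
        linarith) (h3 w (by linarith))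
      rw [div_mul_cancel₀ _ ha.ne'] at hk
      obtain ⟨m, hm⟩ : ∃ m : ℕ, m = ⌊48 * th0 * j⌋₊ := ⟨_, rfl⟩
      rw [← hm] at hk
      have t1 := th0_ge
      have t2 := th0_le
      have hjp : (0 : ℝ) < j := by linarith
      have hm1 : (m : ℝ) ≤ 48 * th0 * j := by rw [hm]; exact Nat.floor_le (by positivity)
      have hm2 : 48 * th0 * j < m + 1 := by rw [hm]; exact Nat.lt_floor_add_one _
      have g1 : 48 * th0 * j ≤ l / 2 := by nlinarith
      have g2 : 48 / 5 * (j : ℝ) ≤ 48 * th0 * j := by nlinarith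
      have hl' : logb 2 (N / (2 ^ m * a)) = l - m := by
        rw [hl, ← div_div, div_right_comm, Real.logb_div hNa.ne' (by positivity), Real.logb_pow,
          Real.logb_self_eq_one (by norm_num)]
        ring
      have hla : logb 2 (2 ^ m * a) = m + logb 2 a := by
        rw [Real.logb_mul (by positivity) ha.ne', Real.logb_pow, Real.logb_self_eq_one (by norm_num)]
        ring
      have hi := ih (2 ^ m * a) (by positivity) (by rw [hl']; linarith) (by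
        rw [hl']
        push_cast at h2
        linarith) (by
        intro w' hw'
        rw [hl'] at hw'
        rw [hla]
        have : (0 : ℝ) ≤ m := Nat.cast_nonneg _
        have := h3 w' (by linarith)
        linarith)
      rw [hl'] at hi
      have hp := pot (l := l) (l' := l - m) (w := w) (j := j) hC.le (by linarith) (by linarith) (by linarith) hj3 hjw
        (by omega)
      rw [← hD] at hp
      have e5 : D * ((K / 3) ^ (-(1 / 160) : ℝ) - l ^ (-(1 / 160) : ℝ)) =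
        D * ((K / 3) ^ (-(1 / 160) : ℝ) - (l - m) ^ (-(1 / 160) : ℝ)) +
        D * ((l - m) ^ (-(1 / 160) : ℝ) - l ^ (-(1 / 160) : ℝ)) := by ring
      rw [e5]
      linarith

/-- (B4) windows a little shorter than the range -/
theorem t_A : S_KEYR → S_A := by
  rintro ⟨C, hC, hkey⟩ ψ hψ ε hε
  obtain ⟨w0, hw0⟩ := eventually_atTop.mp hkey
  obtain ⟨w1, hw1, hw10⟩ : ∃ w1 : ℕ, 200 ≤ w1 ∧ w0 ≤ w1 := ⟨max 200 w0, le_max_left _ _, le_max_right _ _⟩
  obtain ⟨D, hD⟩ : ∃ D : ℝ, D = C * 80 ^ (1 / 160 : ℝ) / ((3 / 5 : ℝ) ^ (-(1 / 160) : ℝ) - 1) := ⟨_, rfl⟩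
  have hc : 0 < (3 / 5 : ℝ) ^ (-(1 / 160) : ℝ) - 1 := by
    have : (1 : ℝ) < (3 / 5 : ℝ) ^ (-(1 / 160) : ℝ) :=
      Real.one_lt_rpow_of_pos_of_lt_one_of_neg (by norm_num) (by norm_num) (by norm_num)
    linarith
  have hD0 : 0 ≤ D := by rw [hD]; positivity
  have hK3 : Tendsto (fun K : ℝ => K / 3) atTop atTop := tendsto_id.atTop_div_const (by norm_num)
  have l1 : Tendsto (fun K : ℝ => D * (K / 3) ^ (-(1 / 160) : ℝ)) atTop (nhds 0) := by
    have := ((tendsto_rpow_neg_atTop (y := 1 / 160) (by norm_num)).comp hK3).const_mul D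
    rw [mul_zero] at this
    exact this
  have l2 : Tendsto (fun K : ℝ => 4 * (2 : ℝ) ^ (-(K / 3))) atTop (nhds 0) := by
    have h1 : Tendsto (fun x : ℝ => (2 : ℝ) ^ (-x)) atTop (nhds 0) := by
      have := tendsto_rpow_atBot_of_base_gt_one (2 : ℝ) (by norm_num)
      exact this.comp tendsto_neg_atTop_atBot
    have := (h1.comp hK3).const_mul 4
    rw [mul_zero] at this
    exact this
  obtain ⟨K, hK1, hK2, hK, hK4⟩ := ((l1.eventually (ge_mem_nhds (show (0 : ℝ) < ε / 3 by positivity))).and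
    ((l2.eventually (ge_mem_nhds (show (0 : ℝ) < ε / 3 by positivity))).and
    ((eventually_ge_atTop (200 : ℝ)).and (eventually_ge_atTop (40 * (w1 : ℝ) ^ 80))))).exists
  have l3 : Tendsto (fun N : ℝ => (ψ N * 2 ^ K) ^ 2) atTop (nhds 0) := by
    have := (hψ.mul_const ((2 : ℝ) ^ K)).pow 2
    rw [zero_mul, zero_pow (by norm_num)] at this
    exact this
  obtain ⟨N0, hN0⟩ := eventually_atTop.mp (l3.eventually (ge_mem_nhds (show (0 : ℝ) < ε / 3 by positivity)))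
  filter_upwards [eventually_ge_atTop (max 2 ⌈max N0 K⌉₊)] with v hv
  intro f κ q hcent a N ha haN hNa hla
  have hv2 : 2 ≤ v := le_trans (le_max_left _ _) hv
  have hvN : max N0 K ≤ v := (Nat.le_ceil _).trans (by exact_mod_cast le_trans (le_max_right _ _) hv)
  have hvr : (2 : ℝ) ≤ v := by exact_mod_cast hv2
  have hvp : (0 : ℝ) < v := by linarith
  have h88 : (0 : ℝ) ≤ 6 * (v : ℝ) ^ 88 := by positivity
  have ha1 : 1 ≤ a := by
    by_contra hcon
    push Not at hcon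
    have := Real.logb_neg (by norm_num : (1 : ℝ) < 2) ha hcon
    linarith
  have hvv : v ≤ 10 * v ^ 80 := by
    have := Nat.le_self_pow (show 80 ≠ 0 by norm_num) v
    omega
  have hp1 : (v : ℝ) ≤ (2 : ℝ) ^ (10 * v ^ 80) := by
    have : v < 2 ^ v := Nat.lt_two_pow_self
    have h2 : (v : ℝ) ≤ (2 : ℝ) ^ v := by exact_mod_cast this.le
    exact h2.trans (pow_le_pow_right₀ (by norm_num) hvv)
  have hvNN : (v : ℝ) ≤ N := by
    calc (v : ℝ) ≤ (2 : ℝ) ^ (10 * v ^ 80) := hp1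
      _ ≤ (2 : ℝ) ^ (10 * v ^ 80) * a := le_mul_of_one_le_right (by positivity) ha1
      _ ≤ N := haN
  have hN2 : 2 ≤ N := hvr.trans hvNN
  have hNpos : 0 < N := by linarith
  have hNap : 0 < N / a := by positivity
  have hlow : 10 * (v : ℝ) ^ 80 ≤ logb 2 (N / a) := by
    rw [Real.le_logb_iff_rpow_le (by norm_num) hNap, le_div_iff₀ ha]
    refine le_trans (le_of_eq ?_) haN
    congr 1
    rw [← Real.rpow_natCast (2 : ℝ) (10 * v ^ 80)]
    push_cast
    rfl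
  have hupp : logb 2 (N / a) ≤ 100 * (v : ℝ) ^ 80 := by
    rw [Real.logb_le_iff_le_rpow (by norm_num) hNap, div_le_iff₀ ha]
    refine hNa.trans (le_of_eq ?_)
    congr 1
    rw [← Real.rpow_natCast (2 : ℝ) (100 * v ^ 80)]
    push_cast
    rfl
  have hvKK : K ≤ v := (le_max_right _ _).trans hvN
  have hv80 : (v : ℝ) ≤ (v : ℝ) ^ 80 := le_self_pow₀ (by linarith) (by norm_num)
  have hb := bands hC hw1 (fun w hw j h1 h2 f hf κ hκ ρ a h3 h4 => hw0 w (hw10.trans hw) j h1 h2 f hf κ hκ ρ a h3 h4)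
    hcent hK hK4 hN2 ⌈logb 2 (N / a)⌉₊ a ha (by linarith) (Nat.le_ceil _) (by
      intro w hw
      have h1 : (w : ℝ) ^ 80 ≤ 5 * (v : ℝ) ^ 80 := by linarith
      exact (w88 (Nat.cast_nonneg _) (Nat.cast_nonneg _) h1).trans hla)
  refine hb.trans ?_
  rw [← hD]
  have e1 := hN0 N ((le_max_left _ _).trans (hvN.trans hvNN))
  have e2 : 0 ≤ D * (logb 2 (N / a)) ^ (-(1 / 160) : ℝ) := by
    have : 0 ≤ logb 2 (N / a) := by linarith [show (0 : ℝ) ≤ 10 * (v : ℝ) ^ 80 by positivity]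
    positivity
  rw [mul_sub]
  linarith

end Pool.Agent.J4H79.PC2
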