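import Pool.Agent.J4H26.PC.Q2
import Pool.Agent.TH237.RT.Int

/-! Project PC (MP_071ec9_an), piece C1: centered indicator functions of invariant sets. -/

set_option autoImplicit false

open Finset Filter Real Topology

namespace Pool.Agent.J4H79.PC2

open Pool.Agent.J4H26.PC
open Pool.Agent.J4H39 (T)

variable {s : ℤ} {R : Set ℤ} {δ : ℝ}

theorem ct_eq (hs : s = 1 ∨ s = -1) (R : Set ℤ) (m : ℕ) [DecidablePred (· ∈ R)] :
    ct s R m = ∑ k ∈ Finset.range m, (if s * ((k : ℤ) + 1) ∈ R then (1 : ℝ) else 0) := by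
  classical
  have hss : ∀ x : ℤ, s * (s * x) = x := by
    intro x; rcases hs with rfl | rfl <;> ring
  rw [← Finset.sum_filter, Finset.sum_const, nsmul_eq_mul, mul_one]
  unfold ct
  congr 1
  have hinj : Function.Injective (fun k : ℕ => s * ((k : ℤ) + 1)) := by
    intro a b hab
    have h1 : s * (s * ((a : ℤ) + 1)) = s * (s * ((b : ℤ) + 1)) := congrArg (fun x => s * x) hab
    rw [hss, hss] at h1
    omega
  have himg : {n : ℤ | 0 < s * n ∧ ((s * n : ℤ) : ℝ) ≤ (m : ℝ) ∧ n ∈ R} =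
      (fun k : ℕ => s * ((k : ℤ) + 1)) ''
        (((Finset.range m).filter (fun k : ℕ => s * ((k : ℤ) + 1) ∈ R) : Finset ℕ) : Set ℕ) := by
    ext n
    simp only [Set.mem_ofPred_eq, Set.mem_image, Finset.coe_filter, Finset.mem_range]
    constructor
    · rintro ⟨h1, h2, h3⟩
      have h2' : s * n ≤ (m : ℤ) := by exact_mod_cast h2
      refine ⟨(s * n - 1).toNat, ⟨by omega, ?_⟩, ?_⟩
      · have : (((s * n - 1).toNat : ℕ) : ℤ) + 1 = s * n := by omega
        rw [this, hss]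
        exact h3
      · have : (((s * n - 1).toNat : ℕ) : ℤ) + 1 = s * n := by omega
        rw [this, hss]
    · rintro ⟨k, ⟨h1, h2⟩, rfl⟩
      refine ⟨?_, ?_, h2⟩
      · rw [hss]; positivity
      · rw [hss]
        have : (k : ℤ) + 1 ≤ m := by omega
        exact_mod_cast this
  rw [himg, Set.ncard_image_of_injective _ hinj, Set.ncard_coe_finset]

/-- the partial sums -/
noncomputable def Sm (s : ℤ) (R : Set ℤ) (δ : ℝ) (m : ℕ) : ℝ :=
  ∑ k ∈ Finset.range m, fR s R δ (s * ((k : ℤ) + 1))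

theorem fR_pos (hs : s = 1 ∨ s = -1) (k : ℕ) [DecidablePred (· ∈ R)] :
    fR s R δ (s * ((k : ℤ) + 1)) = (if s * ((k : ℤ) + 1) ∈ R then (1 : ℝ) else 0) - δ := by
  have hss : ∀ x : ℤ, s * (s * x) = x := by
    intro x; rcases hs with rfl | rfl <;> ring
  unfold fR
  rw [if_pos (by rw [hss]; positivity)]
  split_ifs <;> ring

theorem Sm_eq (hs : s = 1 ∨ s = -1) (m : ℕ) : Sm s R δ m = ct s R m - δ * m := by
  classical
  unfold Sm
  rw [ct_eq hs, Finset.sum_congr rfl (fun k _ => fR_pos hs k), Finset.sum_sub_distrib,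
    Finset.sum_const, Finset.card_range, nsmul_eq_mul]
  ring

theorem fR_abs (h0 : 0 ≤ δ) (h1 : δ ≤ 1) (n : ℤ) : |fR s R δ n| ≤ 1 := by
  unfold fR
  split_ifs
  · rw [abs_of_nonneg (by linarith)]; linarith
  · rw [abs_neg, abs_of_nonneg h0]; exact h1
  · simp

theorem Sm_abs (h0 : 0 ≤ δ) (h1 : δ ≤ 1) (m : ℕ) : |Sm s R δ m| ≤ m := by
  unfold Sm
  refine (Finset.abs_sum_le_sum_abs _ _).trans ?_
  refine (Finset.sum_le_sum (fun k _ => fR_abs h0 h1 _)).trans ?_
  simp

/-- the error function -/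
noncomputable def er (C X : ℝ) : ℝ :=
  3 / X + 1 / √X + C / (Real.log X / 2) ^ (1 / 30 : ℝ)

theorem er_tendsto (C : ℝ) : Tendsto (er C) atTop (𝓝 0) := by
  unfold er
  have h1 : Tendsto (fun X : ℝ => 3 / X) atTop (𝓝 0) := tendsto_const_nhds.div_atTop tendsto_id
  have h2 : Tendsto (fun X : ℝ => 1 / √X) atTop (𝓝 0) :=
    tendsto_const_nhds.div_atTop Real.tendsto_sqrt_atTop
  have h3 : Tendsto (fun X : ℝ => C / (Real.log X / 2) ^ (1 / 30 : ℝ)) atTop (𝓝 0) := by
    refine tendsto_const_nhds.div_atTop ?_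
    exact (tendsto_rpow_atTop (by norm_num)).comp
      (Real.tendsto_log_atTop.atTop_div_const (by norm_num))
  have := (h1.add h2).add h3
  simpa using this

theorem er_nonneg {C X : ℝ} (hC : 0 < C) (hX : 2 ≤ X) : 0 ≤ er C X := by
  unfold er
  have : 0 < Real.log X := Real.log_pos (by linarith)
  positivity

theorem Sm_le (hs : s = 1 ∨ s = -1) (h0 : 0 ≤ δ) (h1 : δ ≤ 1) {C : ℝ} (hC : 0 < C)
    (hr : ∀ X : ℝ, 2 ≤ X → |ct s R X - δ * X| ≤ C * X / (Real.log X) ^ (1 / 30 : ℝ))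
    {X : ℝ} (hX : 2 ≤ X) {m : ℕ} (hm : (m : ℝ) ≤ X) : |Sm s R δ m| ≤ er C X * X := by
  have hX0 : 0 < X := by linarith
  have hL : 0 < Real.log X := Real.log_pos (by linarith)
  have a1 : 0 ≤ 3 / X * X := by positivity
  have a2 : 0 ≤ 1 / √X * X := by positivity
  have a3 : 0 ≤ C / (Real.log X / 2) ^ (1 / 30 : ℝ) * X := by positivity
  have e1 : 3 / X * X = 3 := by field_simp
  have e2 : 1 / √X * X = √X := by
    have h : √X * √X = X := Real.mul_self_sqrt hX0.le
    have h' : √X ≠ 0 := by positivity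
    field_simp
    nlinarith
  have e : er C X * X = 3 / X * X + 1 / √X * X + C / (Real.log X / 2) ^ (1 / 30 : ℝ) * X := by
    unfold er; ring
  rw [e]
  by_cases c1 : (m : ℝ) ≤ √X
  · have := Sm_abs (s := s) (R := R) h0 h1 m
    linarith
  · by_cases c2 : (m : ℝ) < 2
    · have := Sm_abs (s := s) (R := R) h0 h1 m
      linarith
    · push Not at c1 c2
      have h2 := hr m c2
      rw [← Sm_eq hs m] at h2
      have h3 : Real.log X / 2 ≤ Real.log m := by
        rw [← Real.log_sqrt hX0.le]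
        exact Real.log_le_log (by positivity) c1.le
      have h4 : (Real.log X / 2) ^ (1 / 30 : ℝ) ≤ (Real.log m) ^ (1 / 30 : ℝ) :=
        Real.rpow_le_rpow (by positivity) h3 (by norm_num)
      have h5 : 0 < (Real.log X / 2) ^ (1 / 30 : ℝ) := by positivity
      have h6 : C * m / (Real.log m) ^ (1 / 30 : ℝ) ≤ C / (Real.log X / 2) ^ (1 / 30 : ℝ) * X := by
        rw [div_mul_eq_mul_div]
        exact div_le_div₀ (by positivity) (mul_le_mul_of_nonneg_left hm hC.le) h5 h4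
      linarith

theorem sum_nat (f : ℤ → ℝ) (A B : ℕ) :
    ∑ n ∈ Finset.Ico (A : ℤ) (B : ℤ), f n = ∑ k ∈ Finset.Ico A B, f k := by
  refine Finset.sum_nbij' (fun n => n.toNat) (fun k => (k : ℤ)) ?_ ?_ ?_ ?_ ?_
  · intro n hn
    simp only [Finset.mem_Ico] at hn ⊢
    omega
  · intro k hk
    simp only [Finset.mem_Ico] at hk ⊢
    omega
  · intro n hn
    simp only [Finset.mem_Ico] at hn
    omega
  · intro k hk
    omega
  · intro n hn
    simp only [Finset.mem_Ico] at hn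
    congr 1
    omega

theorem sum_neg (f : ℤ → ℝ) (A B : ℕ) :
    ∑ n ∈ Finset.Ico (-(A : ℤ)) (-(B : ℤ)), f n = ∑ k ∈ Finset.Ico B A, f (-((k : ℤ) + 1)) := by
  refine Finset.sum_nbij' (fun n => (-n - 1).toNat) (fun k => -((k : ℤ) + 1)) ?_ ?_ ?_ ?_ ?_
  · intro n hn
    simp only [Finset.mem_Ico] at hn ⊢
    omega
  · intro k hk
    simp only [Finset.mem_Ico] at hk ⊢
    omega
  · intro n hn
    simp only [Finset.mem_Ico] at hn
    omega
  · intro k hk
    omega
  · intro n hn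
    simp only [Finset.mem_Ico] at hn
    congr 1
    omega

/-- the sum over an interval -/
theorem sum_le (hs : s = 1 ∨ s = -1) (h0 : 0 ≤ δ) (h1 : δ ≤ 1) {C : ℝ} (hC : 0 < C)
    (hr : ∀ X : ℝ, 2 ≤ X → |ct s R X - δ * X| ≤ C * X / (Real.log X) ^ (1 / 30 : ℝ))
    {X x y : ℝ} (hX : 2 ≤ X) (hx : kS s * X ≤ x) (hxy : x ≤ y) (hy : y ≤ kS s * X + X) :
    |∑ n ∈ Finset.Ico ⌈x⌉ ⌈y⌉, fR s R δ n| ≤ 2 * (er C X * X) := by
  have hXe : 0 ≤ er C X * X := mul_nonneg (er_nonneg hC hX) (by linarith)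
  have hc : ⌈x⌉ ≤ ⌈y⌉ := Int.ceil_le_ceil hxy
  rcases hs with rfl | rfl
  · have hk : kS 1 = 0 := by unfold kS; rw [if_pos rfl]
    rw [hk] at hx hy
    rw [zero_mul] at hx hy
    rw [zero_add] at hy
    have ha : 0 ≤ ⌈x⌉ := Int.ceil_nonneg hx
    obtain ⟨A, hA⟩ := Int.eq_ofNat_of_zero_le ha
    obtain ⟨B, hB⟩ := Int.eq_ofNat_of_zero_le (ha.trans hc)
    rw [hA, hB, sum_nat]
    have hAB : A ≤ B := by omega
    rw [Finset.sum_Ico_eq_sub _ hAB]
    have key : ∀ M : ℕ, (M : ℝ) < X + 1 → |∑ k ∈ Finset.range M, fR 1 R δ (k : ℤ)| ≤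
        er C X * X := by
      intro M hM
      rcases M with _ | M
      · simpa using hXe
      · rw [Finset.sum_range_succ']
        have e0 : fR 1 R δ ((0 : ℕ) : ℤ) = 0 := by
          unfold fR
          simp
        rw [e0, add_zero]
        have h3 := Sm_le (s := 1) (R := R) (Or.inl rfl) h0 h1 hC hr hX (m := M) (by
          push_cast at hM; linarith)
        unfold Sm at h3
        simpa using h3
    have b1 : (B : ℝ) < X + 1 := by
      have h3 := Int.ceil_lt_add_one y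
      rw [hB] at h3
      have h4 : ((B : ℤ) : ℝ) = (B : ℝ) := by norm_cast
      have h5 : (((Int.ofNat B : ℤ)) : ℝ) = (B : ℝ) := by norm_cast
      linarith
    have a1 : (A : ℝ) < X + 1 := by
      have : (A : ℝ) ≤ B := by exact_mod_cast hAB
      linarith
    have h3 := key A a1
    have h4 := key B b1
    have h5 := abs_sub (∑ k ∈ Finset.range B, fR 1 R δ (k : ℤ))
      (∑ k ∈ Finset.range A, fR 1 R δ (k : ℤ))
    linarith
  · have hk : kS (-1) = -1 := by unfold kS; rw [if_neg (by norm_num)]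
    rw [hk] at hx hy
    have hy0 : y ≤ 0 := by linarith
    have hx0 : -X ≤ x := by linarith
    have hb : ⌈y⌉ ≤ 0 := by
      rw [Int.ceil_le]; simpa using hy0
    obtain ⟨B, hB⟩ := Int.eq_ofNat_of_zero_le (neg_nonneg.mpr hb)
    obtain ⟨A, hA⟩ := Int.eq_ofNat_of_zero_le (neg_nonneg.mpr (hc.trans hb))
    have hA' : ⌈x⌉ = -(A : ℤ) := by
      have : -⌈x⌉ = (A : ℤ) := hA
      omega
    have hB' : ⌈y⌉ = -(B : ℤ) := by
      have : -⌈y⌉ = (B : ℤ) := hB
      omega
    rw [hA', hB', sum_neg]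
    have hAB : B ≤ A := by omega
    rw [Finset.sum_Ico_eq_sub _ hAB]
    have a1 : (A : ℝ) ≤ X := by
      have h3 := Int.le_ceil x
      rw [hA'] at h3
      push_cast at h3
      linarith
    have b1 : (B : ℝ) ≤ X := by
      have : (B : ℝ) ≤ A := by exact_mod_cast hAB
      linarith
    have key : ∀ M : ℕ, (M : ℝ) ≤ X →
        |∑ k ∈ Finset.range M, fR (-1) R δ (-((k : ℤ) + 1))| ≤ er C X * X := by
      intro M hM
      have h3 := Sm_le (s := -1) (R := R) (Or.inr rfl) h0 h1 hC hr hX hM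
      unfold Sm at h3
      simpa using h3
    have h3 := key A a1
    have h4 := key B b1
    have h5 := abs_sub (∑ k ∈ Finset.range A, fR (-1) R δ (-((k : ℤ) + 1)))
      (∑ k ∈ Finset.range B, fR (-1) R δ (-((k : ℤ) + 1)))
    linarith

/-- the square -/
theorem fR_sq (n : ℤ) : fR s R δ n * fR s R δ n =
    (1 - 2 * δ) * fR s R δ n + δ * (1 - δ) * (if 0 < s * n then 1 else 0) := by
  unfold fR
  split_ifs <;> ring

theorem pos_card (hs : s = 1 ∨ s = -1) {X : ℝ} (hX : 2 ≤ X) :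
    |(∑ n ∈ Finset.Ico ⌈kS s * X⌉ ⌈kS s * X + X⌉, (if 0 < s * n then (1 : ℝ) else 0)) - X| ≤ 1 := by
  rcases hs with rfl | rfl
  · have hk : kS 1 = 0 := by unfold kS; rw [if_pos rfl]
    rw [hk, zero_mul, zero_add, Int.ceil_zero]
    obtain ⟨B, hB⟩ := Int.eq_ofNat_of_zero_le (Int.ceil_nonneg (by linarith : 0 ≤ X))
    have hB' : ⌈X⌉ = (B : ℤ) := hB
    have h1 := Int.le_ceil X
    have h2 := Int.ceil_lt_add_one X
    rw [hB'] at h1 h2
    push_cast at h1 h2
    rw [hB', show (0 : ℤ) = ((0 : ℕ) : ℤ) from rfl, sum_nat]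
    have hB1 : 1 ≤ B := by
      have : (0 : ℝ) < B := by linarith
      exact_mod_cast this
    obtain ⟨M, rfl⟩ : ∃ M, B = M + 1 := ⟨B - 1, by omega⟩
    rw [← Finset.range_eq_Ico, Finset.sum_range_succ']
    have e1 : ∀ k ∈ Finset.range M,
        (if ((0 : ℕ) : ℤ) < 1 * (((k + 1 : ℕ) : ℤ)) then (1 : ℝ) else 0) = 1 := by
      intro k _
      rw [if_pos (by push_cast; omega)]
    rw [Finset.sum_congr rfl e1]
    simp only [Finset.sum_const, Finset.card_range, nsmul_eq_mul, mul_one]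
    push_cast at h1 h2
    rw [if_neg (by simp), add_zero, abs_le]
    constructor <;> linarith
  · have hk : kS (-1) = -1 := by unfold kS; rw [if_neg (by norm_num)]
    rw [hk, show (-1 : ℝ) * X + X = 0 by ring, Int.ceil_zero, neg_one_mul]
    have hc : ⌈-X⌉ ≤ 0 := by
      rw [Int.ceil_le]; simp only [Int.cast_zero]; linarith
    obtain ⟨A, hA⟩ := Int.eq_ofNat_of_zero_le (neg_nonneg.mpr hc)
    have hA' : ⌈-X⌉ = -(A : ℤ) := by
      have : -⌈-X⌉ = (A : ℤ) := hA
      omega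
    have h1 := Int.le_ceil (-X)
    have h2 := Int.ceil_lt_add_one (-X)
    rw [hA'] at h1 h2
    push_cast at h1 h2
    rw [hA', show (0 : ℤ) = -((0 : ℕ) : ℤ) by simp, sum_neg]
    have e1 : ∀ k ∈ Finset.Ico 0 A,
        (if -((0 : ℕ) : ℤ) < -1 * (-((k : ℤ) + 1)) then (1 : ℝ) else 0) = 1 := by
      intro k _
      rw [if_pos (by push_cast; omega)]
    rw [Finset.sum_congr rfl e1]
    simp only [Finset.sum_const, Nat.card_Ico, Nat.sub_zero, nsmul_eq_mul, mul_one]
    rw [abs_le]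
    constructor <;> linarith

/-- C1. -/
theorem t_CENT : S_CENT := by
  obtain ⟨C, hC, hrate⟩ := Pool.Agent.TH237.RT.int_rate
  have hψ : Tendsto (fun X : ℝ => 2 * er C X + 1 / X) atTop (𝓝 0) := by
    have h1 : Tendsto (fun X : ℝ => 1 / X) atTop (𝓝 0) := tendsto_const_nhds.div_atTop tendsto_id
    have := ((er_tendsto C).const_mul 2).add h1
    simpa using this
  refine ⟨fun X => 2 * er C X + 1 / X, hψ, fun s hs R hR => ?_⟩
  obtain ⟨δ, h0, h1, -, -, hr'⟩ := hrate s hs R (fun x hx => hR x hx)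
  have hr : ∀ X : ℝ, 2 ≤ X → |ct s R X - δ * X| ≤ C * X / (Real.log X) ^ (1 / 30 : ℝ) :=
    fun X hX => hr' X hX
  refine ⟨δ, h0, h1, ?_, ?_⟩
  · -- the density
    rw [tendsto_iff_dist_tendsto_zero]
    refine squeeze_zero' (Eventually.of_forall fun _ => dist_nonneg) ?_
      ((er_tendsto C).comp tendsto_natCast_atTop_atTop)
    filter_upwards [eventually_ge_atTop 2] with N hN
    have hN2 : (2 : ℝ) ≤ N := by exact_mod_cast hN
    have h2 := Sm_le hs h0 h1 hC hr hN2 (m := N) le_rfl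
    rw [Sm_eq hs] at h2
    have hN0 : (0 : ℝ) < N := by linarith
    rw [Real.dist_eq, show ct s R (N : ℝ) / N - δ = (ct s R N - δ * N) / N by field_simp,
      abs_div, abs_of_pos hN0, div_le_iff₀ hN0]
    exact h2
  · have hX' : ∀ X : ℝ, 2 ≤ X → 0 ≤ 1 / X := fun X hX => by
      have : 0 < X := by linarith
      positivity
    refine ⟨⟨?_, fR_abs h0 h1⟩, ?_, ?_, ?_, ?_, ?_⟩
    · -- invariance
      intro n
      have hT : T n = Pool.Agent.H499R2.ND.Td 1 n := rfl
      have h2 := Pool.Agent.H499R2.ND.Td_one_sign hs n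
      rw [← hT] at h2
      unfold fR
      by_cases hn : 0 < s * n
      · rw [if_pos hn, if_pos (h2.1 hn)]
        have h3 := hR n hn
        by_cases h4 : n ∈ R
        · rw [if_pos h4, if_pos (h3.1 h4)]
        · rw [if_neg h4, if_neg (fun h => h4 (h3.2 h))]
      · rw [if_neg hn, if_neg (fun h => hn (h2.2 h))]
    · unfold kS
      split_ifs <;> simp
    · exact mul_nonneg h0 (by linarith)
    · nlinarith
    · intro X x y hX hx hxy hy
      have h2 := sum_le hs h0 h1 hC hr hX hx hxy hy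
      have h3 := hX' X hX
      have h4 : 0 ≤ 1 / X * X := mul_nonneg h3 (by linarith)
      refine h2.trans ?_
      rw [add_mul]
      linarith
    · intro X hX
      have hX0 : 0 < X := by linarith
      unfold cc
      rw [max_eq_left (by linarith)]
      have e1 : ∀ n ∈ Finset.Ico ⌈kS s * X⌉ ⌈kS s * X + X⌉,
          fR s R δ n * fR s R δ (3 ^ 0 * n + 0) =
          (1 - 2 * δ) * fR s R δ n + δ * (1 - δ) * (if 0 < s * n then 1 else 0) := by
        intro n _
        rw [pow_zero, one_mul, add_zero]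
        exact fR_sq n
      rw [Finset.sum_congr rfl e1, Finset.sum_add_distrib, ← Finset.mul_sum, ← Finset.mul_sum]
      have h2 := sum_le hs h0 h1 hC hr hX (x := kS s * X) (y := kS s * X + X) le_rfl
        (by linarith) le_rfl
      have h3 := pos_card hs hX
      set F := ∑ n ∈ Finset.Ico ⌈kS s * X⌉ ⌈kS s * X + X⌉, fR s R δ n with hF
      set P := ∑ n ∈ Finset.Ico ⌈kS s * X⌉ ⌈kS s * X + X⌉, (if 0 < s * n then (1 : ℝ) else 0)
        with hP
      have e2 : ((1 - 2 * δ) * F + δ * (1 - δ) * P) / X - δ * (1 - δ) =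
          ((1 - 2 * δ) * F + δ * (1 - δ) * (P - X)) / X := by
        field_simp
        ring
      rw [e2, abs_div, abs_of_pos hX0, div_le_iff₀ hX0]
      have h4 : |1 - 2 * δ| ≤ 1 := by
        rw [abs_le]; constructor <;> linarith
      have h5 : |δ * (1 - δ)| ≤ 1 := by
        rw [abs_of_nonneg (mul_nonneg h0 (by linarith))]
        nlinarith
      calc |(1 - 2 * δ) * F + δ * (1 - δ) * (P - X)| ≤
          |(1 - 2 * δ) * F| + |δ * (1 - δ) * (P - X)| := abs_add_le _ _
        _ = |1 - 2 * δ| * |F| + |δ * (1 - δ)| * |P - X| := by rw [abs_mul, abs_mul]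
        _ ≤ 1 * (2 * (er C X * X)) + 1 * 1 := by
          gcongr
        _ = (2 * er C X + 1 / X) * X := by field_simp

end Pool.Agent.J4H79.PC2
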